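import Pool.Agent.Y121.ZI.IDefs

/-!
# Families of smooth proper dg categories: definitions
-/

universe v w

namespace Pool.Agent.Y121.ZI

set_option linter.checkUnivs false

/-- All maps in `S` map `F` to `G`. -/
def MapsInto {V W : Type w} [AddCommGroup V] [Module ℚ V] [AddCommGroup W] [Module ℚ W]
    (S : Maps ℚ V W) (F : Submodule ℚ V) (G : Submodule ℚ W) : Prop := ∀ f ∈ S, ∀ x ∈ F, f x ∈ G

/-- The formal properties of the `S`-linear admissible subcategories `A` of the categories
`D_perf(X)`, for `X` smooth and proper over a connected base `S` with a base point: `H A` is the
topological K-theory (tensored with `ℚ`) of the fibre of `A` over the base point; the maps in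
`cor A B` are induced by the global sections over `S` of the local system of the groups `K_0^top` of
the fibres of `Aᵒᵖ ⊗ B` (modulo torsion) whose values at all points of `S` are algebraic, i.e. in
the image of `K_0 ⊗ ℚ`. For a point `s`, the elements of `algAt s A` are the values at the base
point of the global sections of `K_0^top(A/S) ⊗ ℚ` whose values at `s` are algebraic. -/
structure VarTheory extends NCTheory.{0, v, w} ℚ where
  /-- the points of the base -/
  Pt : Type
  /-- the sections of `K_0^top(A/S) ⊗ ℚ` whose value at the given point is algebraic -/
  algAt : Pt → ∀ A, Submodule ℚ (H A)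
  algAt_cor : ∀ s A B, MapsInto (cor A B) (algAt s A) (algAt s B)
  algAt_one : ∀ s, e ∈ algAt s one
  /-- a section whose values at all points are algebraic is a rational multiple of a section which
  is counted in `cor` -/
  all : ∀ A, (⨅ s, algAt s A) ≤ values (cor one A) e

namespace VarTheory

variable (T : VarTheory.{v, w})

/-- If the value at `s` of a global section of `K_0^top(A/S) ⊗ ℚ` is algebraic, then its values at
all points are algebraic. -/
def VHC (s : T.Pt) (A : T.Obj) : Prop := ∀ t, T.algAt s A ≤ T.algAt t A

end VarTheory

end Pool.Agent.Y121.ZI
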