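import Pool.Agent.Y121.ZI.IDefs

/-!
# Hodge classes on smooth proper dg categories: definitions
-/

open scoped TensorProduct

universe v w

namespace Pool.Agent.Y121.ZI

set_option linter.checkUnivs false

/-- The complexifications of the maps in `S` map `F` to `G`. -/
def ComplexMaps {V W : Type w} [AddCommGroup V] [Module ℚ V] [AddCommGroup W] [Module ℚ W]
    (S : Maps ℚ V W) (F : Submodule ℂ (ℂ ⊗[ℚ] V)) (G : Submodule ℂ (ℂ ⊗[ℚ] W)) : Prop :=
  ∀ f ∈ S, ∀ x ∈ F, f.baseChange ℂ x ∈ G

/-- The vectors `x` of `V` with `p x = x` such that `1 ⊗ x` belongs to `F`. -/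
noncomputable def rational {V : Type w} [AddCommGroup V] [Module ℚ V] (p : V →ₗ[ℚ] V)
    (F : Submodule ℂ (ℂ ⊗[ℚ] V)) : Submodule ℚ V :=
  LinearMap.ker (p - LinearMap.id) ⊓ (F.restrictScalars ℚ).comap (TensorProduct.mk ℚ ℂ V 1)

/-- The formal properties of the topological K-theory `H A = (K_0^top(A) ⊕ K_1^top(A)) ⊗ ℚ` of the
admissible subcategories `A` of the categories `D_perf(X)` (`X` smooth and proper over `ℂ`), with the
maps induced by the elements of `K_0(Aᵒᵖ ⊗ B)`, and of its Hodge structure: the component of type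
`(0, 0)` of `K_0^top(A) ⊗ ℂ`, which is `HH_0(A)`. -/
structure HodgeTheory extends NCTheory.{0, v, w} ℚ where
  /-- the component `HH_0(A)` of `K_0^top(A) ⊗ ℂ` -/
  hh : ∀ A, Submodule ℂ (ℂ ⊗[ℚ] H A)
  hh_cor : ∀ A B, ComplexMaps (cor A B) (hh A) (hh B)
  hh_one : e ∈ rational (par one) (hh one)

namespace HodgeTheory

variable (T : HodgeTheory.{v, w})

/-- The rational Hodge classes: the elements of `K_0^top(A) ⊗ ℚ` which lie in `HH_0(A)`. -/
noncomputable def hdg (A : T.Obj) : Submodule ℚ (T.H A) := rational (T.par A) (T.hh A)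

/-- The noncommutative Hodge conjecture for `A`. -/
def HodgeConj (A : T.Obj) : Prop := T.hdg A ≤ T.alg A

end HodgeTheory

end Pool.Agent.Y121.ZI
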