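import Pool.Agent.Y121.ZI.RatDefs

/-!
# Arbitrary Weil cohomology theories: definitions
-/

universe u v w

namespace Pool.Agent.Y121.ZI

set_option linter.checkUnivs false

/-- The formal properties of an arbitrary Weil cohomology theory `H X = ⊕ H^i(X)` with coefficients
in `K` on the smooth projective varieties over a field, with the maps induced by the cycles on
`X × Y` (of all codimensions, with integral coefficients). -/
structure GradedTheory (K : Type u) [Field K] extends NCTheory.{u, v, w} K where
  dual : SelfDual toNCTheory
  /-- the projector `π_i` of `H X` to `H^i(X)`: the `i`-th Künneth component of the diagonal -/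
  pr : ∀ X, ℕ → H X →ₗ[K] H X
  grading : ∀ X, Grading (par X) (pr X)

end Pool.Agent.Y121.ZI
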