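import Pool.Agent.Y121.ZI.OpDefs

/-!
# Weil cohomology theories: definitions
-/

universe u v w

namespace Pool.Agent.Y121.ZI

set_option linter.checkUnivs false

section

variable {K : Type u} [Field K] {V W : Type v} [AddCommGroup V] [Module K V] [AddCommGroup W]
  [Module K W]

/-- Some maps in `S` and `S'` are inverse to each other. -/
def IsoIn (S : Maps K V W) (S' : Maps K W V) : Prop :=
  ∃ f ∈ S, ∃ g ∈ S', g ∘ₗ f = LinearMap.id ∧ f ∘ₗ g = LinearMap.id

/-- Some maps `f` in `S` and `g` in `S'` satisfy `g ∘ f ≠ 0`. -/
def PairIn (S : Maps K V W) (S' : Maps K W V) : Prop := ∃ f ∈ S, ∃ g ∈ S', g ∘ₗ f ≠ 0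

end

/-- The theory is a theory of varieties: every object is its own dual, and the unit is a direct
summand of every object. -/
def SelfDual {K : Type u} [Field K] (T : NCTheory.{u, v, w} K) : Prop :=
  (∀ X, IsoIn (T.cor (T.op X) X) (T.cor X (T.op X))) ∧
    ∀ X, PairIn (T.cor T.one X) (T.cor X T.one)

namespace NCTheory

variable {K : Type u} [Field K] (T : NCTheory.{u, v, w} K)

/-- The dimension of the space `C (X^{2n})` divided by the rank of the group of cycles on `X^{2n}`
modulo numerical equivalence converges to `N`; if `N` is finite, then the dimension is at most `N`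
times the rank for all `n`. -/
def PowIndex (C : ∀ X, Submodule K (T.H X)) (X : T.Obj) (N : ℕ∞) : Prop :=
  Ratio (fun n => dimOf (C (T.pow X (2 * n)))) (fun n => T.rank (T.pow X (2 * n))) N

/-- There are `r` classes `z_i` in `C`, where `r + 1 ≤ N`, on some power `X^m`, such that for all
`n` all classes in `C` on `X^n` are sums of a linear combination of classes of cycles and of a
linear combination of images of the `z_i` under correspondences. -/
def PowGenerated (C : ∀ X, Submodule K (T.H X)) (X : T.Obj) (N : ℕ∞) : Prop :=
  GenBySome (fun n => T.H (T.pow X n)) (fun m n => T.cor (T.pow X m) (T.pow X n))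
    (fun n => C (T.pow X n)) (fun n => T.alg (T.pow X n)) N

end NCTheory

end Pool.Agent.Y121.ZI
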