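import Pool.Agent.Y121.ZI.VarDefs
import Pool.Agent.Y121.ZI.WeilDefs

/-!
# Families of varieties: definitions
-/

universe v w

namespace Pool.Agent.Y121.ZI

set_option linter.checkUnivs false

/-- The formal properties of the smooth projective morphisms `X → S` (`S` a smooth connected variety
over `ℂ` with a base point): `H X` is the cohomology (with rational coefficients) of the fibre over
the base point; the maps in `cor X Y` are induced by the global sections over `S` of the integral
cohomology (modulo torsion) of the fibres of `X ×_S Y` whose values at all points of `S` are classes
of rational algebraic cycles; the elements of `algAt s X` are the values at the base point of the
global sections of the rational cohomology of the fibres of `X` whose value at `s` is the class of a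
rational algebraic cycle. -/
structure FamTheory extends VarTheory.{v, w} where
  dual : SelfDual toNCTheory

end Pool.Agent.Y121.ZI
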