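import Pool.Agent.Y121.ZI.IDefs

/-!
# Classes generated by `K_0` and the Kuenneth projectors: definitions
-/

universe u v w

namespace Pool.Agent.Y121.ZI

section

variable {K : Type u} [Field K] {V W : Type v} [AddCommGroup V] [Module K V] [AddCommGroup W]
  [Module K W]

/-- The projector to the even part, for the parity `p`. -/
def evenProj (p : V →ₗ[K] V) : V →ₗ[K] V := (2 : K)⁻¹ • (LinearMap.id + p)

/-- The projector to the odd part, for the parity `p`. -/
def oddProj (p : V →ₗ[K] V) : V →ₗ[K] V := (2 : K)⁻¹ • (LinearMap.id - p)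

/-- `f` is a linear combination of maps in `S`. -/
def InSpan (S : Maps K V W) (f : V →ₗ[K] W) : Prop :=
  f ∈ Submodule.span K (S : Set (V →ₗ[K] W))

/-- `S` is closed under multiplication by elements of `K`. -/
def Scaled (S : Maps K V W) : Prop := ∀ f ∈ S, ∀ c : K, c • f ∈ S

end

namespace NCTheory

variable {K : Type u} [Field K] (T : NCTheory.{u, v, w} K)

/-- The Kuenneth projectors `π^+` and `π^-` of `A` (the projectors of `H A` to its even and its odd
part) are algebraic. -/
def KunnethConj (A : T.Obj) : Prop :=
  InSpan (T.cor A A) (evenProj (T.par A)) ∧ InSpan (T.cor A A) (oddProj (T.par A))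

/-- The maps in the spaces `S X Y` are closed under composition and tensor product, and contain the
maps induced by correspondences and the projector `π^+` of `A`. -/
def Closed (A : T.Obj) (S : ∀ X Y, Maps K (T.H X) (T.H Y)) : Prop :=
  (∀ X Y, Scaled (S X Y)) ∧ (∀ X Y, T.cor X Y ≤ S X Y) ∧ evenProj (T.par A) ∈ S A A ∧
    (∀ X Y Z, CompIn (S X Y) (S Y Z) (S X Z)) ∧
    ∀ X Y Z W, TenIn (T.kun X Z) (T.kun Y W) (S X Y) (S Z W) (S (T.ten X Z) (T.ten Y W))

/-- The classes on `X` generated by the correspondences and the Kuenneth projector of `A` (by linear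
combinations, compositions and tensor products). -/
def kcl (A X : T.Obj) : Submodule K (T.H X) :=
  ⨅ S, ⨅ _ : T.Closed A S, values (S T.one X) T.e

end NCTheory

end Pool.Agent.Y121.ZI
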