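import Pool.Agent.Y121.ZI.Stm

/-!
# Descending sequences of classes
-/

open scoped TensorProduct

universe u v w

namespace Pool.Agent.Y121.ZI.NCTheory

open Module Pool.Agent.Y133.Half

variable {K : Type u} [Field K] {T : NCTheory.{u, v, w} K} {P Q R : T.Obj}

lemma kx_ne_zero {x : T.H P} {y : T.H Q} (hx : x ≠ 0) (hy : y ≠ 0) :
    (kx x y : T.H (T.ten P Q)) ≠ 0 := by
  intro h
  have h2 : (TensorProduct.tmul K x y : TensorProduct K (T.H P) (T.H Q)) = 0 :=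
    (T.kun P Q).map_eq_zero_iff.1 h
  obtain ⟨f, hf⟩ := Module.Projective.exists_dual_ne_zero K hy
  have h3 := congrArg ((TensorProduct.rid K (T.H P)).toLinearMap ∘ₗ
    LinearMap.lTensor (T.H P) f) h2
  simp only [LinearMap.comp_apply, LinearMap.lTensor_tmul, map_zero, LinearEquiv.coe_coe,
    TensorProduct.rid_tmul] at h3
  rcases smul_eq_zero.1 h3 with h4 | h4
  · exact hf h4
  · exact hx h4

lemma kx_mem_Ce {x : T.H P} {y : T.H Q} (hx : x ∈ Ce P) (hy : y ∈ Ce Q) :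
    (kx x y : T.H (T.ten P Q)) ∈ Ce (T.ten P Q) := by
  obtain ⟨u, hu, rfl⟩ := hx
  obtain ⟨v, hv, rfl⟩ := hy
  obtain ⟨-, -, ρ', hρ', -, h2⟩ := exists_unit T.one
  refine ⟨ex u v ∘ₗ ρ', S_comp hρ' (S_ex hu hv), ?_⟩
  change ex u v (ρ' T.e) = _
  rw [h2, ex_kx]
  rfl

lemma mem_Ce {u : T.H T.one →ₗ[K] T.H P} (hu : u ∈ T.S T.one P) : u T.e ∈ Ce P := ⟨u, hu, rfl⟩

/-- There is a descending sequence of `n + 1` classes on `P`. -/
def Dsc (P : T.Obj) (n : ℕ) : Prop :=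
  ∃ w : ℕ → T.H P, (∀ j ≤ n, w j ∈ Ce P) ∧ w n ≠ 0 ∧ ∀ j < n, ∃ x ∈ Nn P P, w (j + 1) = x (w j)

lemma Dsc.zero : Dsc (T := T) T.one 0 :=
  ⟨fun _ => T.e, fun _ _ => mem_Ce S_id, T.line.1, fun j hj => absurd hj (Nat.not_lt_zero j)⟩

lemma e_ne_of {z : T.H T.one →ₗ[K] T.H R} (hz : z ≠ 0) : z T.e ≠ 0 := by
  intro h1
  apply hz
  apply LinearMap.ext
  intro y
  obtain ⟨c, rfl⟩ := T.line.2.1 y
  rw [map_smul, h1, smul_zero, LinearMap.zero_apply]

lemma Dsc.succ (n1 : SNum1 T) (n2 : SNum2 T) {n : ℕ} (h : Dsc P n)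
    {z : T.H T.one →ₗ[K] T.H R} (hz : z ∈ Nn T.one R) (hz0 : z ≠ 0)
    {f : T.H T.one →ₗ[K] T.H R} (hf : f ∈ T.S T.one R) {d : T.H R →ₗ[K] T.H T.one}
    (hd : d ∈ T.S R T.one) (hdf : d ∘ₗ f = LinearMap.id) : Dsc (T.ten R P) (n + 1) := by
  obtain ⟨w, hw, h0, hx⟩ := h
  have hdfe : d (f T.e) = T.e := congrArg (fun g => g T.e) hdf
  refine ⟨fun j => if j ≤ n then kx (f T.e) (w j) else kx (z T.e) (w n), fun j hj => ?_, ?_,
    fun j hj => ?_⟩
  · dsimp only
    split_ifs with h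
    · exact kx_mem_Ce (mem_Ce hf) (hw j h)
    · exact kx_mem_Ce (mem_Ce hz.1) (hw n le_rfl)
  · dsimp only
    rw [if_neg (by omega)]
    exact kx_ne_zero (e_ne_of hz0) h0
  · rcases Nat.lt_succ_iff_lt_or_eq.1 hj with hj' | rfl
    · obtain ⟨x, hx, e⟩ := hx j hj'
      refine ⟨ex LinearMap.id x, (n2 P P R x hx).2, ?_⟩
      dsimp only
      rw [if_pos (by omega), if_pos (by omega), ex_kx, LinearMap.id_apply, e]
    · refine ⟨ex (z ∘ₗ d) LinearMap.id, (n2 R R P _ ((n1 R T.one R).2 z hz d hd)).1, ?_⟩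
      dsimp only
      rw [if_neg (by omega), if_pos le_rfl, ex_kx, LinearMap.id_apply, LinearMap.comp_apply,
        hdfe]

/-- The subspace generated by a class. -/
def orb (w : T.H P) : Submodule K (T.H P) := (T.S P P).map (LinearMap.applyₗ w)

lemma mem_orb {w x : T.H P} : x ∈ orb w ↔ ∃ a ∈ T.S P P, a w = x := Submodule.mem_map

lemma orb_stable (w : T.H P) : Stab P (orb w) := by
  intro a ha m hm
  obtain ⟨u, hu, rfl⟩ := mem_orb.1 hm
  exact mem_orb.2 ⟨_, S_comp hu ha, rfl⟩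

lemma self_mem_orb (w : T.H P) : w ∈ orb w := mem_orb.2 ⟨_, S_id, rfl⟩

lemma Dsc.chain (n1 : SNum1 T) {n : ℕ} (h : Dsc P n) (hnil : ∀ x ∈ Nn P P, ∃ n, x ^ n = 0) :
    ∃ M : ℕ → Submodule K (T.H P), (∀ j, Stab P (M j)) ∧
      (∀ j < n + 1, M j < M (j + 1)) ∧ M (n + 1) ≤ Ce P := by
  obtain ⟨w, hw, h0, hx⟩ := h
  have hne : ∀ i, i ≤ n → w (n - i) ≠ 0 := by
    intro i
    induction i with
    | zero => intro _; simpa using h0
    | succ i ih =>
      intro hi h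
      obtain ⟨x, _, e⟩ := hx (n - (i + 1)) (by omega)
      apply ih (by omega)
      have : n - i = n - (i + 1) + 1 := by omega
      rw [this, e, h, map_zero]
  refine ⟨fun j => if j = 0 then ⊥ else orb (w (n + 1 - j)), fun j a ha m hm => ?_,
    fun j hj => ?_, ?_⟩
  · dsimp only at hm ⊢
    split_ifs at hm ⊢ with h
    · rw [(Submodule.mem_bot _).1 hm, map_zero]; exact Submodule.zero_mem _
    · exact orb_stable _ a ha m hm
  · dsimp only
    rw [if_neg (by omega : j + 1 ≠ 0)]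
    rcases Nat.eq_zero_or_pos j with rfl | hj0
    · rw [if_pos rfl, bot_lt_iff_ne_bot]
      intro h
      have h1 := self_mem_orb (w (n + 1 - (0 + 1)))
      rw [h, Submodule.mem_bot] at h1
      exact hne 0 (by omega) (by simpa using h1)
    · rw [if_neg (by omega)]
      obtain ⟨x, hxm, e⟩ := hx (n + 1 - (j + 1)) (by omega)
      have e1 : n + 1 - (j + 1) + 1 = n + 1 - j := by omega
      rw [e1] at e
      refine lt_of_le_of_ne ?_ ?_
      · intro y hy
        obtain ⟨a, ha, rfl⟩ := mem_orb.1 hy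
        rw [e]
        exact mem_orb.2 ⟨_, S_comp hxm.1 ha, rfl⟩
      · intro heq
        have h1 := self_mem_orb (w (n + 1 - (j + 1)))
        rw [← heq] at h1
        obtain ⟨a, ha, h2⟩ := mem_orb.1 h1
        rw [e] at h2
        obtain ⟨N, hN⟩ := hnil _ ((n1 P P P).1 x hxm a ha)
        have h3 : ∀ i : ℕ, ((a ∘ₗ x : Module.End K (T.H P)) ^ i) (w (n + 1 - (j + 1))) =
            w (n + 1 - (j + 1)) := by
          intro i
          induction i with
          | zero => rfl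
          | succ i ih =>
            rw [pow_succ, Module.End.mul_apply, LinearMap.comp_apply, h2, ih]
        have h4 := h3 N
        rw [hN, LinearMap.zero_apply] at h4
        have h5 : n + 1 - (j + 1) = n - j := by omega
        rw [h5] at h4
        exact hne j (by omega) h4.symm
  · dsimp only
    rw [if_neg (by omega)]
    intro y hy
    obtain ⟨a, ha, rfl⟩ := mem_orb.1 hy
    obtain ⟨u, hu, h1⟩ := hw (n + 1 - (n + 1)) (by omega)
    rw [← h1]
    exact ⟨a ∘ₗ u, S_comp hu ha, rfl⟩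

theorem desc [CharZero K] (n1 : SNum1 T) (n2 : SNum2 T) (g1 : SGood1 T) (g2 : SGood2 T) :
    SDesc T := by
  intro A m k hnil z hz hz0 f hf d hd hdf N
  have key : ∀ N : ℕ, ∃ (P : T.Obj) (j : ℕ), Good A P j ∧ Dsc P N := by
    intro N
    induction N with
    | zero => exact ⟨T.one, 0, g1 A, Dsc.zero⟩
    | succ N ih =>
      obtain ⟨P, j, hP, hN⟩ := ih
      exact ⟨_, _, g2 A P j m k hP, hN.succ n1 n2 hz hz0 hf hd hdf⟩
  obtain ⟨P, j, hP, hN⟩ := key N
  obtain ⟨M, h1, h2, h3⟩ := hN.chain n1 (hnil P j hP)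
  exact ⟨P, j, hP, M, h1, h2, h3⟩

end Pool.Agent.Y121.ZI.NCTheory
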