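import Pool.Agent.Y121.ZI.Main
import Pool.Agent.Y809.ZI.Mon
import Pool.Agent.Y261.ZI.Grow
import Pool.Agent.Y274.ZI.Dual
import Pool.Agent.Y427.ZI.Rank
import Pool.Agent.Y564.ZI.Num
import Pool.Agent.Y971.ZI.CS
import Pool.Agent.Y349.ZI.Conv
import Pool.Agent.Y739.ZI.GoodB
import Pool.Agent.Y37.ZI.Nil
import Pool.Agent.Y510.ZI.Low
import Pool.Agent.Y121.ZI.Desc

/-!
# The zero-infinity law: all steps
-/

universe u v w

namespace Pool.Agent.Y121.ZI.NCTheory

open Module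

variable {K : Type u} [Field K] [CharZero K] (T : NCTheory.{u, v, w} K)

theorem steps : Steps T where
  grow := Pool.Agent.Y261.ZI.grow T fun X => Pool.Agent.Y809.ZI.mon (T.H X)
  dual2 := Pool.Agent.Y274.ZI.dual2 T
  coev := Pool.Agent.Y274.ZI.coev T
  num1 := Pool.Agent.Y564.ZI.num1 T
  num2 := Pool.Agent.Y564.ZI.num2 T (Pool.Agent.Y274.ZI.dual2 T)
  conv := Pool.Agent.Y349.ZI.conv T (Pool.Agent.Y274.ZI.dual2 T)
  azz := Pool.Agent.Y349.ZI.azz T (Pool.Agent.Y274.ZI.dual2 T)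
  good1 := Pool.Agent.Y349.ZI.good1 T
  good2 := Pool.Agent.Y739.ZI.good2 T (Pool.Agent.Y274.ZI.dual2 T)
  nil := Pool.Agent.Y37.ZI.nil T (Pool.Agent.Y274.ZI.dual2 T)
    (Pool.Agent.Y971.ZI.cs T (Pool.Agent.Y274.ZI.dual1 T))
  low := Pool.Agent.Y510.ZI.low (Pool.Agent.Y274.ZI.dual2 T)
    (Pool.Agent.Y971.ZI.cs T (Pool.Agent.Y274.ZI.dual1 T))
  desc := NCTheory.desc (Pool.Agent.Y564.ZI.num1 T)
    (Pool.Agent.Y564.ZI.num2 T (Pool.Agent.Y274.ZI.dual2 T)) (Pool.Agent.Y349.ZI.good1 T)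
    (Pool.Agent.Y739.ZI.good2 T (Pool.Agent.Y274.ZI.dual2 T))
  rank := Pool.Agent.Y427.ZI.rank T

open Filter Topology in
/-- **The zero-infinity law.** -/
theorem zero_infinity (A : T.Obj) :
    (∀ m n, T.StdD (T.ten (T.pow A m) (T.op (T.pow A n)))) ∨
      Tendsto (fun n => (T.rank (T.ten (T.pow A n) (T.op (T.pow A n))) : ℝ) /
        T.dim (T.ten (T.pow A n) (T.op (T.pow A n)))) atTop (𝓝 0) := by
  rcases num_law (steps T) (CeC T) A with h | h
  · exact Or.inl fun m n => stdD_of (h m n)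
  · right
    have h1 := tendsto_of h
    have h2 : (fun n => (T.rank (T.ten (T.pow A n) (T.op (T.pow A n))) : ℝ) /
        T.dim (T.ten (T.pow A n) (T.op (T.pow A n)))) =
        fun n => (al A n : ℝ) / finrank K ((CeC T).C (zz A n)) := by
      funext n
      have e1 : T.rank (T.ten (T.pow A n) (T.op (T.pow A n))) = al A n := rank_zz (steps T) A n
      have e2 : T.dim (T.ten (T.pow A n) (T.op (T.pow A n))) =
          finrank K ((CeC T).C (zz A n)) := dim_eq _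
      rw [e1, e2]
    rw [h2]
    exact h1

end Pool.Agent.Y121.ZI.NCTheory
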