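import Pool.Agent.Y121.ZI.Gen

/-!
# Noncommutative homological motives

The formal properties of periodic cyclic homology (in characteristic `p`: topological periodic
cyclic homology with `p` inverted) and of the Grothendieck groups of bimodules on smooth proper dg
categories.
-/

open scoped TensorProduct

universe u v w

namespace Pool.Agent.Y121.ZI

set_option linter.checkUnivs false

/-- The smooth proper dg categories `A` over a field, with the super vector space `H A = HP_±(A)`
(in characteristic `p`: `TP_±(A)` with `p` inverted) over the field `K`. -/
structure SuperTheory (K : Type u) [Field K] where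
  /-- the smooth proper dg categories -/
  Obj : Type v
  /-- `HP_±(A)`, resp. `TP_±(A)` with `p` inverted -/
  H : Obj → Type w
  /-- `H A` is an abelian group -/
  [grp : ∀ A, AddCommGroup (H A)]
  /-- `H A` is a vector space -/
  [mod : ∀ A, Module K (H A)]
  fin : ∀ A, FiniteDimensional K (H A)
  /-- the parity: `1` on the even part of `H A`, `-1` on the odd part -/
  par : ∀ A, H A →ₗ[K] H A
  par_par : ∀ A, Invol (par A)

attribute [instance] SuperTheory.grp SuperTheory.mod

/-- In addition the maps `H A → H B` induced by the elements of `K_0(Aᵒᵖ ⊗ B)`, and the base field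
`k` with `K_0(k) = ℤ` and `H k = K`. -/
structure CorTheory (K : Type u) [Field K] extends SuperTheory.{u, v, w} K where
  /-- the maps `H A → H B` induced by the elements of `K_0(Aᵒᵖ ⊗ B)` -/
  cor : ∀ A B, Maps K (H A) (H B)
  cor_par : ∀ A B, EvenMaps (par A) (par B) (cor A B)
  cor_id : ∀ A, HasId (cor A A)
  cor_comp : ∀ A B C, CompIn (cor A B) (cor B C) (cor A C)
  /-- the base field `k`, as a dg category -/
  one : Obj
  /-- the basis of `H k = K` -/
  e : H one
  line : EvenLine (par one) e
  cor_one : IntMult (cor one one)

/-- In addition the tensor product of dg categories and the Künneth isomorphism. -/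
structure TenTheory (K : Type u) [Field K] extends CorTheory.{u, v, w} K where
  /-- the tensor product of dg categories -/
  ten : Obj → Obj → Obj
  /-- the Künneth isomorphism -/
  kun : ∀ A B, Kun K (H A) (H B) (H (ten A B))
  par_ten : ∀ A B, ParTen (par A) (par B) (kun A B) (par (ten A B))
  cor_ten : ∀ A B C D, TenIn (kun A C) (kun B D) (cor A B) (cor C D) (cor (ten A C) (ten B D))

/-- The formal properties of `HP_±` (resp. `TP_±` with `p` inverted) on smooth proper dg
categories: in addition associativity, unit and symmetry of the tensor product, and the duality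
between `A` and the opposite dg category. -/
structure NCTheory (K : Type u) [Field K] extends TenTheory.{u, v, w} K where
  cor_assoc : ∀ A B C, AssocIn (kun A B) (kun (ten A B) C) (kun B C) (kun A (ten B C))
    (cor (ten (ten A B) C) (ten A (ten B C))) (cor (ten A (ten B C)) (ten (ten A B) C))
  cor_unit : ∀ A, UnitIn e (kun one A) (cor (ten one A) A) (cor A (ten one A))
  cor_swap : ∀ A B, SwapIn (par A) (par B) (kun A B) (kun B A) (cor (ten A B) (ten B A))
  /-- the opposite dg category -/
  op : Obj → Obj
  /-- the duality between `A` and `Aᵒᵖ` given by the diagonal bimodule -/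
  cor_op : ∀ A, DualIn e (kun A (op A)) (kun (op A) A) (cor one (ten A (op A)))
    (cor (ten (op A) A) one)
  /-- the duality `M ↦ RHom_A(M, A)` from `K_0(A)` to `K_0(Aᵒᵖ)` -/
  cor_dual : ∀ A, NonZero (cor one A) → NonZero (cor A one)

namespace NCTheory

variable {K : Type u} [Field K] (T : NCTheory.{u, v, w} K)

/-- The noncommutative standard conjecture of type D for `A`: an element of `K_0(A)` (up to
homological equivalence: a map `H(k) → H(A)` induced by it) which is numerically trivial is zero. -/
def StdD (A : T.Obj) : Prop := NumHom (T.cor T.one A) (T.cor A T.one)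

/-- The rank of `K_0(A)` modulo numerical equivalence. -/
noncomputable def rank (A : T.Obj) : ℕ := numRank (T.cor T.one A) (T.cor A T.one)

/-- The dimension of the `K`-span of the image of `K_0(A)` in the even part of `H A`. -/
noncomputable def dim (A : T.Obj) : ℕ := spanDim (T.cor T.one A)

/-- The tensor powers `A^{⊗ n}`. -/
def pow (A : T.Obj) : ℕ → T.Obj
  | 0 => T.one
  | n + 1 => T.ten A (pow A n)

end NCTheory

end Pool.Agent.Y121.ZI
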