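import Mathlib

/-!
# General notions of linear algebra
-/

open scoped TensorProduct

universe u v

namespace Pool.Agent.Y121.ZI

section

/-- Groups of linear maps `V → W`. -/
abbrev Maps (K : Type u) [Field K] (V W : Type v) [AddCommGroup V] [Module K V] [AddCommGroup W]
    [Module K W] : Type v := AddSubgroup (V →ₗ[K] W)

/-- Linear isomorphisms of `U ⊗ V` with `W`. -/
abbrev Kun (K : Type u) [Field K] (U V W : Type v) [AddCommGroup U] [Module K U] [AddCommGroup V]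
    [Module K V] [AddCommGroup W] [Module K W] : Type v := U ⊗[K] V ≃ₗ[K] W

end

section

variable {K : Type u} [Field K] {U V W : Type v} [AddCommGroup U] [Module K U] [AddCommGroup V]
  [Module K V] [AddCommGroup W] [Module K W]

/-- `p` is an involution. -/
def Invol (p : V →ₗ[K] V) : Prop := ∀ x, p (p x) = x

/-- The maps in `S` commute with the parities `p` and `q`. -/
def EvenMaps (p : V →ₗ[K] V) (q : W →ₗ[K] W) (S : Maps K V W) : Prop :=
  ∀ f ∈ S, ∀ x, f (p x) = q (f x)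

/-- The identity belongs to `S`. -/
def HasId (S : Maps K V V) : Prop := LinearMap.id ∈ S

/-- All compositions of maps in `S` and `S'` belong to `S''`. -/
def CompIn (S : Maps K U V) (S' : Maps K V W) (S'' : Maps K U W) : Prop :=
  ∀ f ∈ S, ∀ g ∈ S', g ∘ₗ f ∈ S''

/-- All maps in `S` are integral multiples of the identity. -/
def IntMult (S : Maps K V V) : Prop := ∀ f ∈ S, ∃ n : ℤ, f = n • LinearMap.id

/-- `e` is a basis of `V`, fixed by `p`. -/
def EvenLine (p : V →ₗ[K] V) (e : V) : Prop := e ≠ 0 ∧ (∀ x, ∃ c : K, x = c • e) ∧ p e = e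

/-- There is a nonzero map in `S`. -/
def NonZero (S : Maps K V W) : Prop := ∃ f ∈ S, f ≠ 0

/-- A map `f` in `S` with `g ∘ f = 0` for all `g` in `S'` is zero. -/
def NumHom (S : Maps K V W) (S' : Maps K W V) : Prop := ∀ f ∈ S, (∀ g ∈ S', g ∘ₗ f = 0) → f = 0

/-- The elements `f` of `S` with `g ∘ f = 0` for all `g ∈ S'`. -/
def numTriv (S : Maps K V W) (S' : Maps K W V) : AddSubgroup S where
  carrier := {f | ∀ g ∈ S', g ∘ₗ (f : V →ₗ[K] W) = 0}
  zero_mem' := fun g _ => LinearMap.comp_zero g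
  add_mem' := fun {a b} ha hb g hg => by
    rw [AddSubgroup.coe_add, LinearMap.comp_add, ha g hg, hb g hg, add_zero]
  neg_mem' := fun {a} ha g hg => by
    rw [AddSubgroup.coe_neg, LinearMap.comp_neg, ha g hg, neg_zero]

/-- The rank of the quotient of the group `S` by the group `numTriv S S'`. -/
noncomputable def numRank (S : Maps K V W) (S' : Maps K W V) : ℕ :=
  Module.finrank ℤ (S ⧸ numTriv S S')

/-- The dimension of the subspace spanned by a group of linear maps. -/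
noncomputable def spanDim (S : Maps K V W) : ℕ :=
  Module.finrank K (Submodule.span K (S : Set (V →ₗ[K] W)))

end

section

variable {K : Type u} [Field K] {A B C X Y Z P Q : Type v} [AddCommGroup A] [Module K A]
  [AddCommGroup B] [Module K B] [AddCommGroup C] [Module K C] [AddCommGroup X] [Module K X]
  [AddCommGroup Y] [Module K Y] [AddCommGroup Z] [Module K Z] [AddCommGroup P] [Module K P]
  [AddCommGroup Q] [Module K Q]

/-- The parity `r` on `P ≅ A ⊗ B` is the product of the parities `p` and `q`. -/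
def ParTen (p : A →ₗ[K] A) (q : B →ₗ[K] B) (κ : Kun K A B P) (r : P →ₗ[K] P) : Prop :=
  ∀ x y, r (κ (x ⊗ₜ y)) = κ (p x ⊗ₜ q y)

/-- The tensor product `f ⊗ g : A ⊗ C → B ⊗ Z` of linear maps, for given isomorphisms `κ`, `κ'` of
`A ⊗ C` with `P` and of `B ⊗ Z` with `Q`, as a map from `P` to `Q`. -/
def ext (κ : Kun K A C P) (κ' : Kun K B Z Q) (f : A →ₗ[K] B) (g : C →ₗ[K] Z) : P →ₗ[K] Q :=
  κ'.toLinearMap ∘ₗ TensorProduct.map f g ∘ₗ κ.symm.toLinearMap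

/-- All tensor products of maps in `S` and `S'` belong to `S''`. -/
def TenIn (κ : Kun K A C P) (κ' : Kun K B Z Q) (S : Maps K A B) (S' : Maps K C Z)
    (S'' : Maps K P Q) : Prop :=
  ∀ f ∈ S, ∀ g ∈ S', ext κ κ' f g ∈ S''

/-- The associativity isomorphism `(A ⊗ B) ⊗ C → A ⊗ (B ⊗ C)` and its inverse belong to `S` and
`S'`; isomorphisms of `A ⊗ B` with `X`, of `X ⊗ C` with `P`, of `B ⊗ C` with `Y` and of `A ⊗ Y` with
`Q` are given. -/
def AssocIn (κ₁ : Kun K A B X) (κ₂ : Kun K X C P) (κ₃ : Kun K B C Y) (κ₄ : Kun K A Y Q)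
    (S : Maps K P Q) (S' : Maps K Q P) : Prop :=
  ∃ f ∈ S, ∃ g ∈ S', ∀ a b c, f (κ₂ (κ₁ (a ⊗ₜ b) ⊗ₜ c)) = κ₄ (a ⊗ₜ κ₃ (b ⊗ₜ c)) ∧
    g (κ₄ (a ⊗ₜ κ₃ (b ⊗ₜ c))) = κ₂ (κ₁ (a ⊗ₜ b) ⊗ₜ c)

/-- The maps `e ⊗ x ↦ x` and `x ↦ e ⊗ x` belong to `S` and `S'`; an isomorphism of `A ⊗ B` with `P`
is given. -/
def UnitIn (e : A) (κ : Kun K A B P) (S : Maps K P B) (S' : Maps K B P) : Prop :=
  ∃ f ∈ S, ∃ g ∈ S', ∀ x, f (κ (e ⊗ₜ x)) = x ∧ g x = κ (e ⊗ₜ x)

/-- The symmetry `x ⊗ y ↦ (-1)^{|x||y|} y ⊗ x` belongs to `S`; here `p` and `q` are the parities on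
`A` and `B` (`1` on the even part, `-1` on the odd part) and isomorphisms of `A ⊗ B` with `P` and of
`B ⊗ A` with `Q` are given. -/
def SwapIn (p : A →ₗ[K] A) (q : B →ₗ[K] B) (κ : Kun K A B P) (κ' : Kun K B A Q)
    (S : Maps K P Q) : Prop :=
  ∃ f ∈ S, (∀ x y, p x = x → f (κ (x ⊗ₜ y)) = κ' (y ⊗ₜ x)) ∧
    (∀ x y, q y = y → f (κ (x ⊗ₜ y)) = κ' (y ⊗ₜ x)) ∧
    ∀ x y, p x = -x → q y = -y → f (κ (x ⊗ₜ y)) = -κ' (y ⊗ₜ x)

/-- `S` and `S'` contain maps `f : Z → A ⊗ B` and `g : B ⊗ A → Z` which form a duality between `A`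
and `B`; here `Z` is a line with basis `e`, and isomorphisms of `A ⊗ B` with `P` and of `B ⊗ A` with
`Q` are given: `f e = ∑ a_i ⊗ α_i` and `g (ζ ⊗ x) = b(ζ, x) e` with `∑ b(α_i, x) a_i = x` and
`∑ b(ζ, a_i) α_i = ζ`. -/
def DualIn (e : Z) (κ : Kun K A B P) (κ' : Kun K B A Q) (S : Maps K Z P) (S' : Maps K Q Z) :
    Prop :=
  ∃ f ∈ S, ∃ g ∈ S', ∃ (n : ℕ) (a : Fin n → A) (α : Fin n → B) (b : B →ₗ[K] A →ₗ[K] K),
    f e = ∑ i, κ (a i ⊗ₜ α i) ∧ (∀ ζ x, g (κ' (ζ ⊗ₜ x)) = b ζ x • e) ∧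
      (∀ x, ∑ i, b (α i) x • a i = x) ∧ ∀ ζ, ∑ i, b ζ (a i) • α i = ζ

end

end Pool.Agent.Y121.ZI
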