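import Pool.Agent.Y121.ZI.Defs

/-!
# Systems of classes on smooth proper dg categories: definitions
-/

open Filter Topology

open scoped TensorProduct ENNReal

universe u v w

namespace Pool.Agent.Y121.ZI

section

variable {K : Type u} [Field K] {V W : Type v} [AddCommGroup V] [Module K V] [AddCommGroup W]
  [Module K W]

/-- The span of the vectors `f e`, for `f` in `S`. -/
def values (S : Maps K V W) (e : V) : Submodule K W := Submodule.span K {x | ∃ f ∈ S, f e = x}

/-- The span of the images of the vectors `z i` under the maps in `S`. -/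
def images (S : Maps K V W) {r : ℕ} (z : Fin r → V) : Submodule K W :=
  Submodule.span K {x | ∃ f ∈ S, ∃ i, f (z i) = x}

/-- The dimension of a subspace. -/
noncomputable def dimOf (F : Submodule K V) : ℕ := Module.finrank K F

end

/-- The quotients `d n / r n` converge to `N` (in `[0, ∞]`, where `x / 0 = ∞` for `x > 0`), and if
`N` is finite then `d n ≤ N * r n` for all `n`. -/
def Ratio (d r : ℕ → ℕ) (N : ℕ∞) : Prop :=
  Tendsto (fun n => (d n : ℝ≥0∞) / r n) atTop (𝓝 (N : ℝ≥0∞)) ∧
    (N ≠ ⊤ → ∀ n, (d n : ℕ∞) ≤ N * r n)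

/-- Let `G n ⊆ F n` be subspaces of `V n` and let `S m n` be a group of linear maps `V m → V n`.
There are `r` vectors `z_i`, where `r + 1 ≤ N`, in one space `F m`, such that for all `n` the space
`F n` is contained in the sum of `G n` and the span of the images of the `z_i` under the maps in
`S m n`. -/
def GenBySome {K : Type u} [Field K] (V : ℕ → Type v) [∀ n, AddCommGroup (V n)]
    [∀ n, Module K (V n)] (S : ∀ m n, Maps K (V m) (V n)) (F G : ∀ n, Submodule K (V n))
    (N : ℕ∞) : Prop :=
  ∃ (m r : ℕ) (z : Fin r → V m), (r : ℕ∞) + 1 ≤ N ∧ (∀ i, z i ∈ F m) ∧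
    ∀ n, F n ≤ G n ⊔ images (S m n) z

namespace NCTheory

variable {K : Type u} [Field K] (T : NCTheory.{u, v, w} K)

/-- `A^{⊗ m} ⊗ (A^{⊗ n})^op`. -/
def bi (A : T.Obj) (m n : ℕ) : T.Obj := T.ten (T.pow A m) (T.op (T.pow A n))

/-- The `K`-span of the classes in `H A` of the elements of `K_0(A)`. -/
def alg (A : T.Obj) : Submodule K (T.H A) := values (T.cor T.one A) T.e

/-- The dimension of the space `C X` of classes on `X = A^{⊗ n} ⊗ (A^{⊗ n})^op` divided by the rank
of `K_0(X)` modulo numerical equivalence converges to `N`; if `N` is finite, then the dimension is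
at most `N` times the rank for all `n`. -/
def HasIndex (C : ∀ X, Submodule K (T.H X)) (A : T.Obj) (N : ℕ∞) : Prop :=
  Ratio (fun n => dimOf (C (T.bi A n n))) (fun n => T.rank (T.bi A n n)) N

/-- There are `r` classes `z_i` in `C`, where `r + 1 ≤ N`, on some `A^{⊗ m} ⊗ (A^{⊗ m})^op`, such
that for all `n` all classes in `C` on `A^{⊗ n} ⊗ (A^{⊗ n})^op` are sums of a linear combination of
classes of elements of `K_0` and of a linear combination of images of the `z_i` under
correspondences. -/
def Generated (C : ∀ X, Submodule K (T.H X)) (A : T.Obj) (N : ℕ∞) : Prop :=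
  GenBySome (fun n => T.H (T.bi A n n)) (fun m n => T.cor (T.bi A m m) (T.bi A n n))
    (fun n => C (T.bi A n n)) (fun n => T.alg (T.bi A n n)) N

end NCTheory

end Pool.Agent.Y121.ZI
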