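import Pool.Agent.Y121.ZI.Idx2
import Pool.Agent.Y121.ZI.IDefs
import Pool.Agent.Y689.ZI.Stdd

/-!
# The index law for systems of classes
-/

open Filter Topology

open scoped TensorProduct ENNReal

universe u v w

namespace Pool.Agent.Y121.ZI.NCTheory

open Module

variable {K : Type u} [Field K] {T : NCTheory.{u, v, w} K}

lemma alg_eq (X : T.Obj) : T.alg X = Ce X := by
  apply le_antisymm
  · rw [alg, values, Submodule.span_le]
    rintro _ ⟨f, hf, rfl⟩
    exact ⟨f, of_cor hf, rfl⟩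
  · rintro _ ⟨u, hu, rfl⟩
    change u T.e ∈ T.alg X
    have hu' : u ∈ Submodule.span K (T.cor T.one X : Set (T.H T.one →ₗ[K] T.H X)) := hu
    clear hu
    induction hu' using Submodule.span_induction with
    | mem f hf => exact Submodule.subset_span ⟨f, hf, rfl⟩
    | zero => exact Submodule.zero_mem _
    | add x y hx hy hx' hy' => exact Submodule.add_mem _ hx' hy'
    | smul c x hx hx' => exact Submodule.smul_mem _ _ hx'

lemma S_apply_mem {X Y : T.Obj} {r : ℕ} {z : Fin r → T.H X} {u : T.H X →ₗ[K] T.H Y}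
    (hu : u ∈ T.S X Y) (i : Fin r) : u (z i) ∈ images (T.cor X Y) z := by
  have hu' : u ∈ Submodule.span K (T.cor X Y : Set (T.H X →ₗ[K] T.H Y)) := hu
  clear hu
  induction hu' using Submodule.span_induction with
  | mem f hf => exact Submodule.subset_span ⟨f, hf, i, rfl⟩
  | zero => exact Submodule.zero_mem _
  | add x y hx hy hx' hy' => exact Submodule.add_mem _ hx' hy'
  | smul c x hx hx' => exact Submodule.smul_mem _ _ hx'

lemma generated_of {C : Cls T} {A : T.Obj} {N : ℕ∞} (h : GenBy C A N) : T.Generated C.C A N := by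
  obtain ⟨m, r, z, h1, h2, h3⟩ := h
  refine ⟨m, r, z, h1, h2, fun n x hx => ?_⟩
  obtain ⟨c, hc, y, hy, rfl⟩ := h3 n x hx
  refine Submodule.add_mem_sup ?_ ?_
  · change c ∈ T.alg (T.bi A n n)
    rw [alg_eq]
    exact hc
  · exact Submodule.sum_mem _ fun i _ => S_apply_mem (hy i) i

/-- **The index law.** -/
theorem index_law [CharZero K] (C : Cls T) (A : T.Obj) [Nontrivial (T.H A)] :
    ∃ N : ℕ∞, 1 ≤ N ∧ T.HasIndex C.C A N ∧
      (N = 1 ↔ (∀ n, C.C (T.bi A n n) ≤ T.alg (T.bi A n n)) ∧ ∀ m n, T.StdD (T.bi A m n)) ∧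
      (N ≠ ⊤ → (∀ m n, T.StdD (T.bi A m n)) ∧ T.Generated C.C A N) := by
  have hD : (∀ m k, Nn T.one (xx A m k) = ⊥) ↔ ∀ m n, T.StdD (T.bi A m n) :=
    ⟨fun h m n => stdD_of (h m n), fun h m n => Pool.Agent.Y689.ZI.stdd T _ (h m n)⟩
  obtain ⟨N, h1, h2, h3, h4⟩ := index C A Module.finrank_pos
  refine ⟨N, h1, ⟨h2, fun hN n => ?_⟩, ?_, fun hN => ?_⟩
  · obtain ⟨h5, h6, h7⟩ := h4 hN
    have h8 := h6 n
    have h9 : (((finrank K (C.C (zz A n)) : ℕ∞)) : ℝ≥0∞) ≤
        (((N * (T.rank (zz A n) : ℕ∞)) : ℕ∞) : ℝ≥0∞) := by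
      rw [ENat.toENNReal_mul]
      simpa using h8
    exact ENat.toENNReal_le.1 h9
  · rw [h3, hD]
    refine and_congr_left fun _ => forall_congr' fun n => ?_
    have e : T.alg (T.bi A n n) = Ce (zz A n) := alg_eq _
    rw [e]
    constructor
    · intro h; exact h.le
    · intro h; exact le_antisymm h (Ce_le C _)
  · obtain ⟨h5, h6, h7⟩ := h4 hN
    exact ⟨hD.1 h5, generated_of h7⟩

end Pool.Agent.Y121.ZI.NCTheory
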