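import Pool.Agent.Y121.ZI.Main

/-!
# Statements of the steps of the index law
-/

open scoped TensorProduct ENNReal

open Filter Topology

universe u v w

namespace Pool.Agent.Y121.ZI.NCTheory

open Module Pool.Agent.Y133.Half

variable {K : Type u} [Field K] {T : NCTheory.{u, v, w} K}

/-- The space generated on `Q` by a subspace `M` of `H P`. -/
def gn (P Q : T.Obj) (M : Submodule K (T.H P)) : Submodule K (T.H Q) :=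
  Submodule.span K {x | ∃ v ∈ T.S P Q, ∃ m ∈ M, v m = x}

variable (T)

/-- OPTEN. -/
def SOpTen : Prop := ∀ X Y : T.Obj, OIso (T.op (T.ten X Y)) (T.ten (T.op X) (T.op Y))

/-- ZZADD. -/
def SZzAdd : Prop := ∀ (A : T.Obj) (m n : ℕ), OIso (zz A (m + n)) (T.ten (zz A m) (zz A n))

/-- RETR. -/
def SRetr : Prop := ∀ A : T.Obj, (∀ l, 0 < al A l) → ∀ m n, m ≤ n →
  ∃ i ∈ T.S (zz A m) (zz A n), ∃ p ∈ T.S (zz A n) (zz A m), p ∘ₗ i = LinearMap.id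

/-- MOVE. -/
def SMove : Prop := ∀ A : T.Obj, (∀ n, Nn T.one (zz A n) = ⊥) → ∀ m n, Nn (zz A m) (zz A n) = ⊥

/-- DEC. Decomposition of stable spaces. -/
def SDec : Prop := ∀ P : T.Obj, Nn P P = ⊥ → ∀ M' M : Submodule K (T.H P), Stab P M' → Stab P M →
  M' ≤ M → ∃ (r : ℕ) (g : Fin r → (T.H P →ₗ[K] T.H P)) (z : Fin r → T.H P),
    (∀ i, g i ∈ T.S P P ∧ g i ∘ₗ g i = g i ∧ g i ≠ 0 ∧ z i ∈ M) ∧
    (∀ x ∈ M, ∃ m' ∈ M', ∃ y : Fin r → (T.H P →ₗ[K] T.H P), (∀ i, y i ∈ T.S P P) ∧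
      x = m' + ∑ i, y i (z i)) ∧
    ∀ Q : T.Obj, Nn P Q = ⊥ →
      finrank K (gn P Q M) = finrank K (gn P Q M') + ∑ i, a P (g i) Q LinearMap.id

/-- LIM. -/
def SLim : Prop := ∀ A : T.Obj,
  (∀ (m n : ℕ) (g : T.H (zz A m) →ₗ[K] T.H (zz A m)), g ∈ T.S (zz A m) (zz A m) → g ∘ₗ g = g →
    a (zz A m) g (zz A n) LinearMap.id ≤ finrank K (LinearMap.range g) * al A n) ∧
  (Full A → 0 < finrank K (T.H A) → ∀ (m : ℕ) (g : T.H (zz A m) →ₗ[K] T.H (zz A m)),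
    g ∈ T.S (zz A m) (zz A m) → g ∘ₗ g = g → ∀ δ : ℝ, 0 < δ → ∃ n₀ : ℕ, ∀ n ≥ n₀,
      ((finrank K (LinearMap.range g) : ℝ) - δ) * al A n ≤ a (zz A m) g (zz A n) LinearMap.id)

/-- IDX. The index law in the nondegenerate case. -/
def SIdx : Prop := ∀ (C : Cls T) (A : T.Obj), Full A → (∀ l, 0 < al A l) →
  0 < finrank K (T.H A) → (∀ n, Nn T.one (zz A n) = ⊥) →
    ∃ N : ℕ∞, 1 ≤ N ∧
      Tendsto (fun n => (finrank K (C.C (zz A n)) : ℝ≥0∞) / al A n) atTop (𝓝 (N : ℝ≥0∞)) ∧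
      (∀ n, (finrank K (C.C (zz A n)) : ℝ≥0∞) ≤ (N : ℝ≥0∞) * al A n) ∧
      (N ≠ ⊤ → ∃ (m r : ℕ) (z : Fin r → T.H (zz A m)), (r : ℕ∞) + 1 ≤ N ∧
        (∀ i, z i ∈ C.C (zz A m)) ∧ ∀ n, ∀ x ∈ C.C (zz A n), ∃ c ∈ Ce (zz A n),
          ∃ y : Fin r → (T.H (zz A m) →ₗ[K] T.H (zz A n)),
            (∀ i, y i ∈ T.S (zz A m) (zz A n)) ∧ x = c + ∑ i, y i (z i))

end Pool.Agent.Y121.ZI.NCTheory
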