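import Pool.Agent.Y121.ZI.Asm
import Pool.Agent.Y180.ZI.OpTen
import Pool.Agent.Y344.ZI.Move
import Pool.Agent.Y447.ZI.Dec
import Pool.Agent.Y658.ZI.Lim
import Pool.Agent.Y417.ZI.Idx

/-!
# The index law
-/

open scoped TensorProduct ENNReal

open Filter Topology

universe u v w

namespace Pool.Agent.Y121.ZI.NCTheory

open Module Pool.Agent.Y133.Half

variable {K : Type u} [Field K] {T : NCTheory.{u, v, w} K}

theorem sidx [CharZero K] (T : NCTheory.{u, v, w} K) : SIdx T :=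
  Pool.Agent.Y417.ZI.idx T (steps T).coev (Pool.Agent.Y180.ZI.retr T (steps T).azz)
    (Pool.Agent.Y344.ZI.move T (steps T).dual2 (steps T).num1 (steps T).num2)
    (Pool.Agent.Y447.ZI.dec T)
    (Pool.Agent.Y658.ZI.lim T (steps T).dual2
      (Pool.Agent.Y971.ZI.cs T (Pool.Agent.Y274.ZI.dual1 T)))

lemma al_eq_of (H : Steps T) {A : T.Obj} {n : ℕ} (h : Nn T.one (zz A n) = ⊥) :
    al A n = finrank K (Ce (zz A n)) := by
  have h1 : a T.one LinearMap.id (zz A n) LinearMap.id = al A n := H.azz (T.pow A n)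
  rw [← h1, ← dim_eq]
  have h2 : rk (F T.one (zz A n) LinearMap.id LinearMap.id).flip =
      a T.one LinearMap.id (zz A n) LinearMap.id := rk_flip _
  rw [← h2, rk]
  have h3 : Function.Injective (F T.one (zz A n) LinearMap.id LinearMap.id).flip := by
    rw [← LinearMap.ker_eq_bot, LinearMap.ker_eq_bot']
    intro v hv
    have h4 : (v : T.H T.one →ₗ[K] T.H (zz A n)) ∈ Nn T.one (zz A n) := by
      refine ⟨v.2, fun u hu => ?_⟩
      exact congrArg (fun φ : T.S (zz A n) T.one →ₗ[K] K => φ ⟨u, hu⟩) hv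
    rw [h, Submodule.mem_bot] at h4
    exact Subtype.ext h4
  exact LinearMap.finrank_range_of_inj h3

lemma Ce_ne_bot (H : Steps T) {A : T.Obj} (hA : 0 < finrank K (T.H A)) (n : ℕ) :
    Ce (zz A n) ≠ ⊥ := by
  intro hb
  obtain ⟨c, hc, hinj⟩ := H.coev (T.pow A n)
  have hce : c T.e ∈ Ce (zz A n) := ⟨c, hc, rfl⟩
  have hce' : c T.e = 0 := by
    rw [hb] at hce
    exact (Submodule.mem_bot K).1 hce
  have h2 : (LinearMap.id : T.H (T.pow A n) →ₗ[K] T.H (T.pow A n)) = 0 :=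
    hinj _ ((congrArg _ hce').trans (map_zero _))
  have h3 : 0 < finrank K (T.H (T.pow A n)) := by
    rw [finrank_pow]; exact Nat.pow_pos hA
  have h4 : Nontrivial (T.H (T.pow A n)) := Module.nontrivial_of_finrank_pos h3
  obtain ⟨x, hx⟩ := exists_ne (0 : T.H (T.pow A n))
  exact hx (congrArg (fun f => f x) h2)

lemma finrank_C_pos (H : Steps T) (C : Cls T) {A : T.Obj} (hA : 0 < finrank K (T.H A)) (n : ℕ) :
    0 < finrank K (C.C (zz A n)) := by
  have h1 : 0 < finrank K (Ce (zz A n)) := by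
    rw [Nat.pos_iff_ne_zero]
    intro h
    exact Ce_ne_bot H hA n (Submodule.finrank_eq_zero.1 h)
  exact lt_of_lt_of_le h1 (Submodule.finrank_mono (Ce_le C _))

lemma tendsto_top_of {c β : ℕ → ℕ} (h : ∀ N : ℕ, ∃ n₀ : ℕ, ∀ n ≥ n₀, N * β n ≤ c n)
    (hc : ∀ n, 0 < c n) : Tendsto (fun n => (c n : ℝ≥0∞) / β n) atTop (𝓝 ⊤) := by
  rw [ENNReal.tendsto_nhds_top_iff_nat]
  intro N
  obtain ⟨n₀, hn₀⟩ := h (N + 1)
  filter_upwards [eventually_ge_atTop n₀] with n hn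
  have h2 := hn₀ n hn
  rcases Nat.eq_zero_or_pos (β n) with h3 | h3
  · rw [h3, Nat.cast_zero, ENNReal.div_zero (by exact_mod_cast (hc n).ne')]
    exact ENNReal.natCast_lt_top N
  · have h4 : ((N + 1 : ℕ) : ℝ≥0∞) ≤ (c n : ℝ≥0∞) / β n := by
      rw [ENNReal.le_div_iff_mul_le (Or.inl (by exact_mod_cast h3.ne'))
        (Or.inl (ENNReal.natCast_ne_top _))]
      exact_mod_cast h2
    exact lt_of_lt_of_le (by exact_mod_cast Nat.lt_succ_self N) h4

/-- The classes in `C` on all `A^{⊗ n} ⊗ (A^{⊗ n})^op` are generated by the classes of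
correspondences and at most `N - 1` classes in `C`. -/
def GenBy (C : Cls T) (A : T.Obj) (N : ℕ∞) : Prop :=
  ∃ (m r : ℕ) (z : Fin r → T.H (zz A m)), (r : ℕ∞) + 1 ≤ N ∧ (∀ i, z i ∈ C.C (zz A m)) ∧
    ∀ n, ∀ x ∈ C.C (zz A n), ∃ c ∈ Ce (zz A n),
      ∃ y : Fin r → (T.H (zz A m) →ₗ[K] T.H (zz A n)),
        (∀ i, y i ∈ T.S (zz A m) (zz A n)) ∧ x = c + ∑ i, y i (z i)

/-- **The index law.** -/
theorem index [CharZero K] (C : Cls T) (A : T.Obj) (hA : 0 < finrank K (T.H A)) :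
    ∃ N : ℕ∞, 1 ≤ N ∧
      Tendsto (fun n => (finrank K (C.C (zz A n)) : ℝ≥0∞) / T.rank (zz A n)) atTop
        (𝓝 (N : ℝ≥0∞)) ∧
      (N = 1 ↔ (∀ n, C.C (zz A n) = Ce (zz A n)) ∧ ∀ m k, Nn T.one (xx A m k) = ⊥) ∧
      (N ≠ ⊤ → (∀ m k, Nn T.one (xx A m k) = ⊥) ∧
        (∀ n, (finrank K (C.C (zz A n)) : ℝ≥0∞) ≤ (N : ℝ≥0∞) * T.rank (zz A n)) ∧
          GenBy C A N) := by
  have H := steps T
  simp only [rank_zz H]
  by_cases hgood : Full A ∧ (∀ l, 0 < al A l) ∧ ∀ m k, Nn T.one (xx A m k) = ⊥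
  · obtain ⟨hF, hpos, hD⟩ := hgood
    have hD' : ∀ n, Nn T.one (zz A n) = ⊥ := fun n => hD n n
    obtain ⟨N, h1, h2, h3, h4⟩ := sidx T C A hF hpos hA hD'
    refine ⟨N, h1, h2, ⟨?_, ?_⟩, fun hN => ⟨hD, h3, h4 hN⟩⟩
    · intro hN
      refine ⟨fun n => ?_, hD⟩
      have h5 := h3 n
      rw [hN, ENat.toENNReal_one, one_mul] at h5
      have h6 : finrank K (C.C (zz A n)) ≤ al A n := by exact_mod_cast h5
      rw [al_eq_of H (hD' n)] at h6
      exact (Submodule.eq_of_le_of_finrank_le (Ce_le C _) h6).symm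
    · rintro ⟨hC, -⟩
      have h5 : (fun n => (finrank K (C.C (zz A n)) : ℝ≥0∞) / al A n) = fun _ => 1 := by
        funext n
        rw [hC n, ← al_eq_of H (hD' n)]
        exact ENNReal.div_self (by exact_mod_cast (hpos n).ne') (ENNReal.natCast_ne_top _)
      rw [h5] at h2
      have h6 := tendsto_nhds_unique h2 tendsto_const_nhds
      have h7 : (N : ℝ≥0∞) = ((1 : ℕ∞) : ℝ≥0∞) := by rw [h6, ENat.toENNReal_one]
      exact ENat.toENNReal_inj.1 h7
  · have hinf : ∀ N : ℕ, ∃ n₀ : ℕ, ∀ n ≥ n₀, N * al A n ≤ finrank K (C.C (zz A n)) := by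
      intro N
      rcases num_law H C A with hD | h
      swap
      · exact h N
      rcases Nat.eq_zero_or_pos (al A 1) with h0 | h1
      · refine ⟨1, fun n hn => ?_⟩
        obtain ⟨n, rfl⟩ : ∃ n', n = n' + 1 := ⟨n - 1, by omega⟩
        rw [al_zero_of H.num2 h0, mul_zero]
        exact Nat.zero_le _
      have hpos := al_pos_of H.conv (al_zero_pos A) h1
      rcases ratio_dichotomy hpos (H.conv A) ((finrank K (T.H A) : ℝ) ^ 2) with
        ⟨c, hc, hcB, h⟩ | hB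
      · exact small_of H.grow H.coev C hc hcB h N
      · exact absurd ⟨hB, hpos, hD⟩ hgood
    have hnot : ¬ ((∀ n, C.C (zz A n) = Ce (zz A n)) ∧ ∀ m k, Nn T.one (xx A m k) = ⊥) := by
      rintro ⟨hC, hD⟩
      obtain ⟨n₀, hn₀⟩ := hinf 2
      have h1 := hn₀ n₀ le_rfl
      have h2 := finrank_C_pos H C hA n₀
      rw [hC n₀, ← al_eq_of H (hD n₀ n₀)] at h1 h2
      omega
    refine ⟨⊤, le_top, ?_, ⟨fun h => absurd h (by simp), fun h => absurd h hnot⟩,
      fun h => absurd rfl h⟩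
    have h1 := tendsto_top_of hinf (finrank_C_pos H C hA)
    simpa using h1

end Pool.Agent.Y121.ZI.NCTheory
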