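import Pool.Agent.Y121.ZI.Rk

/-!
# Isomorphisms between parts of objects
-/

open scoped TensorProduct

universe u v w

namespace Pool.Agent.Y121.ZI.NCTheory

open Module Pool.Agent.Y133.Half

variable {K : Type u} [Field K] {T : NCTheory.{u, v, w} K}
variable {A B C D P Q X Y Z : T.Obj}

/-- The pairs `(A, g)` and `(B, g')` are isomorphic. -/
def PIso (A : T.Obj) (g : T.H A →ₗ[K] T.H A) (B : T.Obj) (g' : T.H B →ₗ[K] T.H B) : Prop :=
  ∃ θ ∈ T.S A B, ∃ θ' ∈ T.S B A, θ' ∘ₗ θ = LinearMap.id ∧ θ ∘ₗ θ' = LinearMap.id ∧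
    θ ∘ₗ g = g' ∘ₗ θ

/-- `A` and `B` are isomorphic. -/
abbrev OIso (A B : T.Obj) : Prop := PIso (T := T) A LinearMap.id B LinearMap.id

lemma PIso.refl (A : T.Obj) (g : T.H A →ₗ[K] T.H A) : PIso A g A g :=
  ⟨LinearMap.id, S_id, LinearMap.id, S_id, rfl, rfl, rfl⟩

lemma PIso.symm {g : T.H A →ₗ[K] T.H A} {g' : T.H B →ₗ[K] T.H B} (h : PIso A g B g') :
    PIso B g' A g := by
  obtain ⟨θ, hθ, θ', hθ', h1, h2, h3⟩ := h
  refine ⟨θ', hθ', θ, hθ, h2, h1, ?_⟩
  calc θ' ∘ₗ g' = θ' ∘ₗ g' ∘ₗ (θ ∘ₗ θ') := by rw [h2, LinearMap.comp_id]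
    _ = θ' ∘ₗ (g' ∘ₗ θ) ∘ₗ θ' := rfl
    _ = (θ' ∘ₗ θ) ∘ₗ g ∘ₗ θ' := by rw [← h3]; rfl
    _ = _ := by rw [h1, LinearMap.id_comp]

lemma PIso.trans {g : T.H A →ₗ[K] T.H A} {g' : T.H B →ₗ[K] T.H B} {g'' : T.H C →ₗ[K] T.H C}
    (h : PIso A g B g') (h' : PIso B g' C g'') : PIso A g C g'' := by
  obtain ⟨θ, hθ, θ', hθ', h1, h2, h3⟩ := h
  obtain ⟨η, hη, η', hη', k1, k2, k3⟩ := h'
  refine ⟨η ∘ₗ θ, S_comp hθ hη, θ' ∘ₗ η', S_comp hη' hθ', ?_, ?_, ?_⟩
  · calc (θ' ∘ₗ η') ∘ₗ η ∘ₗ θ = θ' ∘ₗ (η' ∘ₗ η) ∘ₗ θ := rfl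
      _ = _ := by rw [k1, LinearMap.id_comp, h1]
  · calc (η ∘ₗ θ) ∘ₗ θ' ∘ₗ η' = η ∘ₗ (θ ∘ₗ θ') ∘ₗ η' := rfl
      _ = _ := by rw [h2, LinearMap.id_comp, k2]
  · calc (η ∘ₗ θ) ∘ₗ g = η ∘ₗ (θ ∘ₗ g) := rfl
      _ = (η ∘ₗ g') ∘ₗ θ := by rw [h3]; rfl
      _ = _ := by rw [k3]; rfl

/-- Isomorphisms of pairs are compatible with external products. -/
lemma PIso.ten {g : T.H A →ₗ[K] T.H A} {g' : T.H B →ₗ[K] T.H B} {h : T.H C →ₗ[K] T.H C}
    {h' : T.H D →ₗ[K] T.H D} (i : PIso A g B g') (j : PIso C h D h') :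
    PIso (T.ten A C) (ex g h) (T.ten B D) (ex g' h') := by
  obtain ⟨θ, hθ, θ', hθ', h1, h2, h3⟩ := i
  obtain ⟨η, hη, η', hη', k1, k2, k3⟩ := j
  refine ⟨ex θ η, S_ex hθ hη, ex θ' η', S_ex hθ' hη', ?_, ?_, ?_⟩
  · rw [ex_comp, h1, k1, ex_id]
  · rw [ex_comp, h2, k2, ex_id]
  · rw [ex_comp, ex_comp, h3, k3]

lemma OIso.ten (i : OIso A B) (j : OIso C D) : OIso (T.ten A C) (T.ten B D) := by
  have := PIso.ten i j
  rw [ex_id, ex_id] at this
  exact this

/-- Associativity. -/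
lemma PIso.assoc (A B C : T.Obj) (f : T.H A →ₗ[K] T.H A) (g : T.H B →ₗ[K] T.H B)
    (h : T.H C →ₗ[K] T.H C) :
    PIso (T.ten (T.ten A B) C) (ex (ex f g) h) (T.ten A (T.ten B C)) (ex f (ex g h)) := by
  obtain ⟨α, hα, α', hα', h1, h2⟩ := exists_assoc A B C
  refine ⟨α, hα, α', hα', ?_, ?_, ?_⟩
  · exact kx_ext₃ fun x y z => by rw [LinearMap.comp_apply, h1, h2, LinearMap.id_apply]
  · exact kx_ext₃' fun x y z => by rw [LinearMap.comp_apply, h2, h1, LinearMap.id_apply]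
  · exact kx_ext₃ fun x y z => by simp only [LinearMap.comp_apply, ex_kx, h1]

lemma OIso.assoc (A B C : T.Obj) : OIso (T.ten (T.ten A B) C) (T.ten A (T.ten B C)) := by
  have := PIso.assoc A B C LinearMap.id LinearMap.id LinearMap.id
  rw [ex_id, ex_id, ex_id, ex_id] at this
  exact this

/-- The unit. -/
lemma PIso.unit (A : T.Obj) (f : T.H A →ₗ[K] T.H A) :
    PIso (T.ten T.one A) (ex LinearMap.id f) A f := by
  obtain ⟨α, hα, α', hα', h1, h2⟩ := exists_unit A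
  have key : ∀ z : T.H T.one, ∀ x : T.H A, ∃ c : K, z = c • T.e :=
    fun z x => T.line.2.1 z
  refine ⟨α, hα, α', hα', ?_, ?_, ?_⟩
  · refine kx_ext fun z x => ?_
    obtain ⟨c, rfl⟩ := T.line.2.1 z
    rw [LinearMap.comp_apply, kx_smul_left, map_smul, h1, map_smul, h2, LinearMap.id_apply]
  · refine LinearMap.ext fun x => ?_
    rw [LinearMap.comp_apply, h2, h1, LinearMap.id_apply]
  · refine kx_ext fun z x => ?_
    obtain ⟨c, rfl⟩ := T.line.2.1 z
    rw [LinearMap.comp_apply, LinearMap.comp_apply, kx_smul_left, map_smul, map_smul, ex_kx,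
      LinearMap.id_apply, map_smul, h1, h1, map_smul]

lemma OIso.unit (A : T.Obj) : OIso (T.ten T.one A) A := by
  have := PIso.unit A LinearMap.id
  rw [ex_id] at this
  exact this

/-- The even and the odd part of a vector. -/
noncomputable def ev (x : T.H A) : T.H A := (2 : K)⁻¹ • (x + T.par A x)

/-- The even and the odd part of a vector. -/
noncomputable def od (x : T.H A) : T.H A := (2 : K)⁻¹ • (x - T.par A x)

lemma ev_add_od [CharZero K] (x : T.H A) : ev x + od x = x := by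
  rw [ev, od, ← smul_add]
  have : x + T.par A x + (x - T.par A x) = (2 : K) • x := by rw [two_smul]; abel
  rw [this, smul_smul, inv_mul_cancel₀ two_ne_zero, one_smul]

lemma par_ev (x : T.H A) : T.par A (ev x) = ev x := by
  rw [ev, map_smul, map_add, T.par_par A x, add_comm]

lemma par_od (x : T.H A) : T.par A (od x) = -od x := by
  rw [od, map_smul, map_sub, T.par_par A x, ← smul_neg, neg_sub]

lemma map_ev {f : T.H A →ₗ[K] T.H B} (hf : f ∈ T.S A B) (x : T.H A) : f (ev x) = ev (f x) := by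
  have h : f (T.par A x) = T.par B (f x) := congrArg (fun g => g x) (S_par hf)
  rw [ev, ev, map_smul, map_add, h]

lemma map_od {f : T.H A →ₗ[K] T.H B} (hf : f ∈ T.S A B) (x : T.H A) : f (od x) = od (f x) := by
  have h : f (T.par A x) = T.par B (f x) := congrArg (fun g => g x) (S_par hf)
  rw [od, od, map_smul, map_sub, h]

/-- The symmetry, on arbitrary vectors. -/
lemma exists_swap [CharZero K] (A B : T.Obj) : ∃ s ∈ T.S (T.ten A B) (T.ten B A),
    ∀ (x : T.H A) (y : T.H B), s (kx x y) = kx y (ev x) + kx (T.par B y) (od x) := by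
  obtain ⟨s, hs, h1, h2, h3⟩ := T.cor_swap A B
  refine ⟨s, of_cor hs, fun x y => ?_⟩
  have e1 : ∀ x y, T.par A x = x → s (kx x y) = kx y x := h1
  have e2 : ∀ x y, T.par B y = y → s (kx x y) = kx y x := h2
  have e3 : ∀ x y, T.par A x = -x → T.par B y = -y → s (kx x y) = -kx y x := h3
  have hy : kx (T.par B y) (od x) = kx (ev y) (od x) - kx (od y) (od x) := by
    conv_lhs => rw [← ev_add_od y, map_add, par_ev, par_od, kx_add_left]
    rw [sub_eq_add_neg]
    congr 1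
    rw [← neg_one_smul K (od y), kx_smul_left, neg_one_smul]
  calc s (kx x y) = s (kx (ev x) y) + s (kx (od x) y) := by
        rw [← map_add, ← kx_add_left, ev_add_od]
    _ = kx y (ev x) + s (kx (od x) (ev y + od y)) := by rw [e1 _ _ (par_ev x), ev_add_od]
    _ = kx y (ev x) + (kx (ev y) (od x) + -kx (od y) (od x)) := by
        rw [kx_add_right, map_add, e2 _ _ (par_ev y), e3 _ _ (par_od x) (par_od y)]
    _ = _ := by rw [hy, sub_eq_add_neg]

/-- The symmetry. -/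
lemma PIso.swap [CharZero K] (A B : T.Obj) {f : T.H A →ₗ[K] T.H A} (hf : f ∈ T.S A A)
    {g : T.H B →ₗ[K] T.H B} (hg : g ∈ T.S B B) :
    PIso (T.ten A B) (ex f g) (T.ten B A) (ex g f) := by
  obtain ⟨s, hs, h1⟩ := exists_swap A B
  obtain ⟨s', hs', h2⟩ := exists_swap B A
  have hinv : ∀ {A B : T.Obj} {s : T.H (T.ten A B) →ₗ[K] T.H (T.ten B A)}
      {s' : T.H (T.ten B A) →ₗ[K] T.H (T.ten A B)},
      (∀ (x : T.H A) (y : T.H B), s (kx x y) = kx y (ev x) + kx (T.par B y) (od x)) →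
      (∀ (x : T.H B) (y : T.H A), s' (kx x y) = kx y (ev x) + kx (T.par A y) (od x)) →
      s' ∘ₗ s = LinearMap.id := by
    intro A B s s' h1 h2
    refine kx_ext fun x y => ?_
    have hpy : ∀ y : T.H B, ev (T.par B y) = ev y := fun y => by
      rw [ev, ev, T.par_par B y, add_comm]
    have hpo : ∀ y : T.H B, od (T.par B y) = -od y := fun y => by
      rw [od, od, T.par_par B y, ← smul_neg, neg_sub]
    rw [LinearMap.comp_apply, h1, map_add, h2, h2, par_ev, par_od, hpy, hpo,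
      LinearMap.id_apply]
    have e1 : (kx (ev x) (ev y) : T.H (T.ten A B)) + kx (ev x) (od y) = kx (ev x) y := by
      rw [← kx_add_right, ev_add_od]
    have e2 : (kx (od x) (ev y) : T.H (T.ten A B)) + kx (-od x) (-od y) = kx (od x) y := by
      have : (kx (-od x) (-od y) : T.H (T.ten A B)) = kx (od x) (od y) := by
        rw [← neg_one_smul K (od x), ← neg_one_smul K (od y), kx_smul_left, kx_smul_right,
          smul_smul, neg_one_mul, neg_neg, one_smul]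
      rw [this, ← kx_add_right, ev_add_od]
    rw [e1, e2, ← kx_add_left, ev_add_od]
  refine ⟨s, hs, s', hs', hinv h1 h2, hinv h2 h1, ?_⟩
  refine kx_ext fun x y => ?_
  have hgy : g (T.par B y) = T.par B (g y) := congrArg (fun f => f y) (S_par hg)
  rw [LinearMap.comp_apply, LinearMap.comp_apply, ex_kx, h1, h1, map_add, ex_kx, ex_kx,
    map_ev hf, map_od hf, hgy]

lemma OIso.swap [CharZero K] (A B : T.Obj) : OIso (T.ten A B) (T.ten B A) := by
  have := PIso.swap A B S_id S_id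
  rw [ex_id, ex_id] at this
  exact this

lemma OIso.runit [CharZero K] (A : T.Obj) : OIso (T.ten A T.one) A :=
  (OIso.swap A T.one).trans (OIso.unit A)

/-- Powers. -/
lemma OIso.pow_add (A : T.Obj) (m n : ℕ) :
    OIso (T.ten (T.pow A m) (T.pow A n)) (T.pow A (m + n)) := by
  induction m with
  | zero => rw [Nat.zero_add]; exact OIso.unit _
  | succ m ih =>
    rw [Nat.succ_add]
    exact (OIso.assoc A (T.pow A m) (T.pow A n)).trans
      (OIso.ten (PIso.refl A LinearMap.id) ih)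

/-- Isomorphic pairs have the same ranks. -/
lemma PIso.a_eq {g : T.H A →ₗ[K] T.H A} {g' : T.H B →ₗ[K] T.H B} (i : PIso A g B g')
    (C : T.Obj) (h : T.H C →ₗ[K] T.H C) : a A g C h = a B g' C h := by
  obtain ⟨θ, hθ, θ', hθ', h1, h2, h3⟩ := i
  exact a_iso hθ hθ' h1 h2 h3 C h

/-- Isomorphic pairs have the same ranks. -/
lemma PIso.a_eq_right {g : T.H A →ₗ[K] T.H A} (hg : g ∈ T.S A A) {g' : T.H B →ₗ[K] T.H B}
    (hg' : g' ∈ T.S B B) (i : PIso A g B g') (C : T.Obj) (h : T.H C →ₗ[K] T.H C) :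
    a C h A g = a C h B g' := by
  rw [a_comm hg, a_comm hg', i.a_eq]

lemma PIso.finrank_eq {g : T.H A →ₗ[K] T.H A} {g' : T.H B →ₗ[K] T.H B} (i : PIso A g B g') :
    finrank K (T.H A) = finrank K (T.H B) := by
  obtain ⟨θ, hθ, θ', hθ', h1, h2, h3⟩ := i
  exact (LinearEquiv.ofLinearMap θ θ' h2 h1).finrank_eq

lemma finrank_ten (A B : T.Obj) :
    finrank K (T.H (T.ten A B)) = finrank K (T.H A) * finrank K (T.H B) := by
  rw [← (T.kun A B).finrank_eq, Module.finrank_tensorProduct]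

lemma finrank_one : finrank K (T.H T.one) = 1 :=
  finrank_eq_one T.e T.line.1 fun w => by
    obtain ⟨c, hc⟩ := T.line.2.1 w
    exact ⟨c, hc.symm⟩

lemma finrank_pow (A : T.Obj) (n : ℕ) : finrank K (T.H (T.pow A n)) = finrank K (T.H A) ^ n := by
  induction n with
  | zero => rw [_root_.pow_zero]; exact finrank_one
  | succ n ih =>
    have h : T.pow A (n + 1) = T.ten A (T.pow A n) := rfl
    rw [h, finrank_ten, ih, _root_.pow_succ, mul_comm]

end Pool.Agent.Y121.ZI.NCTheory
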