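import Pool.Agent.Y121.ZI.Stm
import Pool.Agent.Y133.Half.Seq

/-!
# The zero-infinity law and the factor two law
-/

open scoped TensorProduct

universe u v w

namespace Pool.Agent.Y121.ZI.NCTheory

open Module Pool.Agent.Y133.Half

variable {K : Type u} [Field K] {T : NCTheory.{u, v, w} K}

lemma id_mem_Nn_of {X : T.Obj} (h : a X LinearMap.id X LinearMap.id = 0) :
    LinearMap.id ∈ Nn X X := by
  refine ⟨S_id, fun v hv => ?_⟩
  have h1 : F X X LinearMap.id LinearMap.id = 0 := by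
    rw [a, rk, Submodule.finrank_eq_zero] at h
    exact LinearMap.range_eq_bot.1 h
  have h2 := congrArg (fun φ : T.S X X →ₗ[K] T.S X X →ₗ[K] K => φ ⟨v, hv⟩ ⟨_, S_id⟩) h1
  exact h2

lemma a_eq_zero_of {X : T.Obj} (h : LinearMap.id ∈ Nn X X) :
    a X LinearMap.id X LinearMap.id = 0 := by
  have h1 : F X X LinearMap.id LinearMap.id = 0 := by
    apply LinearMap.ext; intro u
    apply LinearMap.ext; intro v
    exact h.2 _ (S_comp v.2 u.2)
  rw [a, h1, rk]
  simp

lemma a_self_iso {X Y : T.Obj} (i : OIso X Y) :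
    a X LinearMap.id X LinearMap.id = a Y LinearMap.id Y LinearMap.id := by
  rw [i.a_eq, PIso.a_eq_right S_id S_id i]

lemma al_zero_of [CharZero K] (n2 : SNum2 T) {A : T.Obj} (h : al A 1 = 0) (n : ℕ) :
    al A (n + 1) = 0 := by
  have h1 : a A LinearMap.id A LinearMap.id = 0 := by
    rw [← a_self_iso (OIso.runit A)]; exact h
  have h2 := (n2 A A (T.pow A n) _ (id_mem_Nn_of h1)).1
  rw [ex_id] at h2
  exact a_eq_zero_of h2

lemma al_pos_of (hc : SConv T) {A : T.Obj} (h0 : 0 < al A 0) (h : 0 < al A 1) (l : ℕ) :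
    0 < al A l := by
  have key : ∀ l, 0 < al A l ∧ 0 < al A (l + 1) := by
    intro l
    induction l with
    | zero => exact ⟨h0, h⟩
    | succ l ih =>
      refine ⟨ih.2, ?_⟩
      have h1 := hc A l
      rcases Nat.eq_zero_or_pos (al A (l + 2)) with h2 | h2
      · rw [h2, zero_mul] at h1
        have := Nat.pow_pos (n := 2) ih.2
        omega
      · exact h2
  exact (key l).1

lemma al_zero_pos : ∀ A : T.Obj, 0 < al A 0 := by
  intro A
  rw [Nat.pos_iff_ne_zero]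
  intro h
  have h1 := id_mem_Nn_of (X := T.one) h
  have h2 := h1.2 _ S_id
  have h3 : T.par T.one = LinearMap.id := by
    apply LinearMap.ext
    intro x
    obtain ⟨c, rfl⟩ := T.line.2.1 x
    rw [map_smul, T.line.2.2, LinearMap.id_apply]
  rw [h3, LinearMap.id_comp, LinearMap.id_comp, LinearMap.trace_id, finrank_one] at h2
  norm_num at h2

/-- Classes of `S` are classes of every stable system. -/
lemma Ce_le (C : Cls T) (X : T.Obj) : Ce X ≤ C.C X := by
  rintro _ ⟨u, hu, rfl⟩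
  exact C.map u hu _ C.one

variable (T) in
/-- The system of the classes of correspondences. -/
def CeC : Cls T where
  C := Ce
  map := by
    rintro X Y f hf _ ⟨u, hu, rfl⟩
    exact ⟨f ∘ₗ u, S_comp hu hf, rfl⟩
  one := ⟨LinearMap.id, S_id, rfl⟩

lemma finrank_S_le (hco : SCoev T) (C : Cls T) (Y : T.Obj) :
    finrank K (T.S Y Y) ≤ finrank K (C.C (rr Y)) := by
  obtain ⟨c, hc, hinj⟩ := hco Y
  let Φ : T.S Y Y →ₗ[K] C.C (rr Y) :=
    { toFun := fun u => ⟨(ex (u : T.H Y →ₗ[K] T.H Y) (LinearMap.id : T.H (T.op Y) →ₗ[K] _) :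
        T.H (rr Y) →ₗ[K] T.H (rr Y)) (c T.e), C.map _ (S_ex u.2 S_id) _ (C.map c hc _ C.one)⟩
      map_add' := fun u v => Subtype.ext (by
        simp only [Submodule.coe_add, ex_add_left, LinearMap.add_apply]
        rfl)
      map_smul' := fun r u => Subtype.ext (by
        simp only [Submodule.coe_smul, ex_smul_left, LinearMap.smul_apply, RingHom.id_apply]
        rfl) }
  refine LinearMap.finrank_le_finrank_of_injective (f := Φ) ?_
  rw [← LinearMap.ker_eq_bot, LinearMap.ker_eq_bot']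
  intro u hu
  exact Subtype.ext (hinj u (congrArg Subtype.val hu))

/-- If the ratios are bounded by a number less than the square of the dimension, the ranks are
negligible. -/
lemma small_of (hg : SGrow T) (hco : SCoev T) (C : Cls T) {A : T.Obj} {c : ℝ} (hc0 : 0 ≤ c)
    (hcB : c < (finrank K (T.H A) : ℝ) ^ 2) (h : ∀ l, (al A (l + 1) : ℝ) ≤ c * al A l) (N : ℕ) :
    ∃ n₀ : ℕ, ∀ n ≥ n₀, N * al A n ≤ finrank K (C.C (zz A n)) := by
  obtain ⟨n₀, hn₀⟩ := exp_lt hc0 hcB (finrank K (T.H A) ^ 2) (C := (N : ℝ) * al A 0)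
    (ε := 1) one_pos
  refine ⟨n₀, fun n hn => ?_⟩
  have h1 := hn₀ n hn
  have h2 := hg A n
  have h3 := finrank_S_le hco C (T.pow A n)
  have h4 := geom_bound hc0 h n
  have h5 : (0 : ℝ) < (n + 2 : ℝ) ^ (finrank K (T.H A) ^ 2) := by positivity
  have h6 : ((finrank K (T.H A) : ℝ) ^ 2) ^ n ≤
      (finrank K (C.C (zz A n)) : ℝ) * (n + 2 : ℝ) ^ (finrank K (T.H A) ^ 2) := by
    have h7 : finrank K (T.H A) ^ (2 * n) ≤ finrank K (C.C (zz A n)) *
        (n + 2) ^ (finrank K (T.H A) ^ 2) :=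
      h2.trans (Nat.mul_le_mul h3 (Nat.pow_le_pow_left (by omega) _))
    rw [← pow_mul]
    exact_mod_cast h7
  have h8 : ((N : ℝ) * al A n) * (n + 2 : ℝ) ^ (finrank K (T.H A) ^ 2) ≤
      (finrank K (C.C (zz A n)) : ℝ) * (n + 2 : ℝ) ^ (finrank K (T.H A) ^ 2) := by
    calc ((N : ℝ) * al A n) * (n + 2 : ℝ) ^ (finrank K (T.H A) ^ 2)
        ≤ ((N : ℝ) * (c ^ n * al A 0)) * (n + 2 : ℝ) ^ (finrank K (T.H A) ^ 2) := by
          gcongr
      _ = (N : ℝ) * al A 0 * c ^ n * (n + 2 : ℝ) ^ (finrank K (T.H A) ^ 2) := by ring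
      _ ≤ 1 * ((finrank K (T.H A) : ℝ) ^ 2) ^ n := h1
      _ ≤ _ := by rw [one_mul]; exact h6
  have h9 := le_of_mul_le_mul_right h8 h5
  exact_mod_cast h9

lemma ne_zero_iff_e {X : T.Obj} {x : T.H T.one →ₗ[K] T.H X} : x ≠ 0 ↔ x T.e ≠ 0 := by
  constructor
  · intro h h1
    apply h
    apply LinearMap.ext
    intro y
    obtain ⟨c, rfl⟩ := T.line.2.1 y
    rw [map_smul, h1, smul_zero, LinearMap.zero_apply]
  · rintro h rfl
    exact h rfl

lemma exists_cor_ne {X Y : T.Obj} {x : T.H X →ₗ[K] T.H Y} (hx : x ∈ T.S X Y) (h0 : x ≠ 0) :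
    NonZero (T.cor X Y) := by
  by_contra h
  have h1 : T.S X Y = ⊥ := by
    rw [S, Submodule.span_eq_bot]
    intro y hy
    by_contra h2
    exact h ⟨y, hy, h2⟩
  rw [h1, Submodule.mem_bot] at hx
  exact h0 hx

/-- A numerically trivial class yields a numerically trivial class on `X ⊗ X^op`. -/
lemma exists_z [CharZero K] (n1 : SNum1 T) (n2 : SNum2 T) (hco : SCoev T) {X : T.Obj}
    (h : Nn T.one X ≠ ⊥) : ∃ z ∈ Nn T.one (rr X), z ≠ 0 := by
  obtain ⟨x, hx, hx0⟩ := Submodule.exists_mem_ne_zero_of_ne_bot h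
  obtain ⟨y, hy, hy0⟩ := T.cor_dual X (exists_cor_ne hx.1 hx0)
  obtain ⟨c, hc, hinj⟩ := hco X
  have hu : x ∘ₗ y ∈ Nn X X := (n1 X T.one X).2 x hx y (of_cor hy)
  have hu0 : x ∘ₗ y ≠ 0 := by
    intro h
    obtain ⟨v, hv⟩ : ∃ v, y v ≠ 0 := by
      by_contra h1
      push Not at h1
      exact hy0 (LinearMap.ext h1)
    obtain ⟨r, hr⟩ := T.line.2.1 (y v)
    have h1 : x (y v) = 0 := congrArg (fun f => f v) h
    rw [hr, map_smul] at h1
    rcases smul_eq_zero.1 h1 with h2 | h2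
    · rw [h2, zero_smul] at hr
      exact hv hr
    · exact ne_zero_iff_e.1 hx0 h2
  have hz : ex (x ∘ₗ y) (LinearMap.id : T.H (T.op X) →ₗ[K] T.H (T.op X)) ∘ₗ c ∈
      Nn T.one (rr X) :=
    (n1 T.one (rr X) (rr X)).2 _ (n2 X X (T.op X) _ hu).1 c hc
  exact ⟨_, hz, fun h1 => hu0 (hinj _
    (congrArg (fun f : T.H T.one →ₗ[K] T.H (rr X) => f T.e) h1))⟩

lemma exists_fd [CharZero K] (g1 : SGood1 T) (g2 : SGood2 T) {A : T.Obj}
    (hpos : ∀ l, 0 < al A l) (m k : ℕ) : ∃ f ∈ T.S T.one (rr (xx A m k)),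
      ∃ d ∈ T.S (rr (xx A m k)) T.one, d ∘ₗ f = LinearMap.id := by
  set R := rr (xx A m k) with hR
  have h1 := (g2 A T.one 0 m k (g1 A)).2 0
  have h2 : b (T.ten R T.one) LinearMap.id (T.pow A 0) = a R LinearMap.id T.one LinearMap.id := by
    rw [b, ex_id]
    exact ((OIso.runit (T.ten R T.one)).trans (OIso.runit R)).a_eq _ _
  rw [h2, a_comm S_id] at h1
  have h3 : 0 < a T.one LinearMap.id R LinearMap.id := lt_of_lt_of_le (hpos _) h1
  have h4 : F T.one R LinearMap.id LinearMap.id ≠ 0 := by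
    intro h
    have h5 : rk (0 : T.S R T.one →ₗ[K] T.S T.one R →ₗ[K] K) = 0 := by
      rw [rk, LinearMap.range_zero, finrank_bot]
    have h6 : a T.one LinearMap.id R LinearMap.id = 0 := by rw [a, h]; exact h5
    omega
  obtain ⟨u, v, huv⟩ : ∃ u v, F T.one R LinearMap.id LinearMap.id u v ≠ 0 := by
    by_contra h
    push Not at h
    exact h4 (LinearMap.ext fun u => LinearMap.ext fun v => h u v)
  obtain ⟨r, hr⟩ := T.line.2.1 ((u : T.H R →ₗ[K] T.H T.one) ((v : T.H T.one →ₗ[K] T.H R) T.e))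
  have hr0 : r ≠ 0 := by
    rintro rfl
    rw [zero_smul] at hr
    apply huv
    rw [F_apply]
    have h5 : (u : T.H R →ₗ[K] T.H T.one) ∘ₗ (v : T.H T.one →ₗ[K] T.H R) = 0 := by
      by_contra h6
      exact (ne_zero_iff_e.1 h6) hr
    rw [LinearMap.id_comp, LinearMap.id_comp, h5, LinearMap.comp_zero, map_zero]
  refine ⟨v, v.2, r⁻¹ • (u : T.H R →ₗ[K] T.H T.one), Submodule.smul_mem _ _ u.2, ?_⟩
  apply LinearMap.ext
  intro y
  obtain ⟨c, rfl⟩ := T.line.2.1 y
  rw [LinearMap.comp_apply, map_smul, map_smul, LinearMap.smul_apply, hr, LinearMap.id_apply,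
    smul_smul, smul_smul, mul_assoc, inv_mul_cancel₀ hr0, mul_one]

variable (T) in
/-- All steps. -/
structure Steps : Prop where
  grow : SGrow T
  dual2 : SDual2 T
  coev : SCoev T
  num1 : SNum1 T
  num2 : SNum2 T
  conv : SConv T
  azz : SAzz T
  good1 : SGood1 T
  good2 : SGood2 T
  nil : SNil T
  low : SLow T
  desc : SDesc T
  rank : SRank T

/-- **Zero-infinity law for numerical equivalence.** -/
theorem num_law [CharZero K] (H : Steps T) (C : Cls T) (A : T.Obj) :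
    (∀ m k, Nn T.one (xx A m k) = ⊥) ∨ ∀ N : ℕ, ∃ n₀ : ℕ, ∀ n ≥ n₀,
      N * al A n ≤ finrank K (C.C (zz A n)) := by
  by_cases hN : ∀ m k, Nn T.one (xx A m k) = ⊥
  · exact Or.inl hN
  right
  intro N
  rcases Nat.eq_zero_or_pos (al A 1) with h0 | h1
  · refine ⟨1, fun n hn => ?_⟩
    obtain ⟨n, rfl⟩ : ∃ n', n = n' + 1 := ⟨n - 1, by omega⟩
    rw [al_zero_of H.num2 h0, mul_zero]
    exact Nat.zero_le _
  have hpos := al_pos_of H.conv (al_zero_pos A) h1
  rcases ratio_dichotomy hpos (H.conv A) ((finrank K (T.H A) : ℝ) ^ 2) with ⟨c, hc, hcB, h⟩ | hB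
  · exact small_of H.grow H.coev C hc hcB h N
  have hD : 0 < finrank K (T.H A) := by
    rw [Nat.pos_iff_ne_zero]
    intro hD
    have h2 : a (T.pow A 1) LinearMap.id (T.pow A 1) LinearMap.id ≤ _ := a_le _ _
    have h3 : finrank K (T.H (T.pow A 1)) = 0 := by rw [finrank_pow, hD]; rfl
    rw [h3, mul_zero] at h2
    have : al A 1 ≤ 0 := h2
    omega
  push Not at hN
  obtain ⟨m, k, hmk⟩ := hN
  obtain ⟨z, hz, hz0⟩ := exists_z H.num1 H.num2 H.coev hmk
  obtain ⟨f, hf, d, hd, hdf⟩ := exists_fd H.good1 H.good2 hpos m k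
  obtain ⟨P, j, hP, M, hM, hlt, hle⟩ := H.desc A m k
    (fun P j hP => H.nil A hB hpos hD P j hP) z hz hz0 f hf d hd hdf N
  obtain ⟨n₀, hn₀⟩ := H.low C A hB hD P j hP M (N + 1) hM hlt (hle.trans (Ce_le C P)) 1 one_pos
  refine ⟨n₀, fun n hn => ?_⟩
  have h2 := hn₀ n hn
  have h3 : (((N + 1 : ℕ) : ℝ) - 1) = N := by push_cast; ring
  rw [h3] at h2
  exact_mod_cast h2

/-- The objects `A^{⊗ m} ⊗ (A^{⊗ m})^op` have weight `m`. -/
lemma good_zz [CharZero K] (h : SDual2 T) (A : T.Obj) (m : ℕ) : Good A (zz A m) m := by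
  refine ⟨?_, fun n => ?_⟩
  · rw [zz, finrank_ten, (h _).2.2, finrank_pow, ← pow_add]
    congr 1
    ring
  · have i1 : OIso (T.ten (T.pow A n) (T.pow A m)) (T.pow A (n + m)) := OIso.pow_add A n m
    have e1 : al A (n + m) = a (T.ten (T.pow A n) (T.pow A m)) LinearMap.id
        (T.ten (T.pow A n) (T.pow A m)) LinearMap.id := (a_self_iso i1).symm
    have e2 := dual_move (h (T.pow A m)).1 (X := T.pow A n)
      (Y := T.ten (T.pow A n) (T.pow A m)) LinearMap.id LinearMap.id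
    rw [ex_id, ex_id] at e2
    rw [e1]
    refine e2.trans ?_
    rw [a_comm S_id, b, ex_id]
    apply le_of_eq
    have i2 : OIso (T.ten (T.ten (T.pow A n) (T.pow A m)) (T.op (T.pow A m)))
        (T.ten (zz A m) (T.pow A n)) :=
      (OIso.assoc _ _ _).trans (OIso.swap _ _)
    exact i2.a_eq _ _

/-- **The law of the factor two.** -/
theorem factor_two [CharZero K] (H : Steps T) (C : Cls T) (A : T.Obj) :
    ((∀ n, C.C (zz A n) = Ce (zz A n)) ∧ ∀ m k, Nn T.one (xx A m k) = ⊥) ∨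
      ∀ ε : ℝ, 0 < ε → ∃ n₀ : ℕ, ∀ n ≥ n₀, (2 - ε) * al A n ≤ finrank K (C.C (zz A n)) := by
  rcases num_law H C A with hN | hN
  swap
  · right
    intro ε hε
    obtain ⟨n₀, hn₀⟩ := hN 2
    refine ⟨n₀, fun n hn => ?_⟩
    have h1 : (2 : ℝ) * al A n ≤ finrank K (C.C (zz A n)) := by exact_mod_cast hn₀ n hn
    have h2 : (0 : ℝ) ≤ al A n := Nat.cast_nonneg _
    nlinarith
  by_cases heq : ∀ n, C.C (zz A n) = Ce (zz A n)
  · exact Or.inl ⟨heq, hN⟩
  right
  intro ε hε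
  rcases Nat.eq_zero_or_pos (al A 1) with h0 | h1
  · refine ⟨1, fun n hn => ?_⟩
    obtain ⟨n, rfl⟩ : ∃ n', n = n' + 1 := ⟨n - 1, by omega⟩
    rw [al_zero_of H.num2 h0, Nat.cast_zero, mul_zero]
    exact Nat.cast_nonneg _
  have hpos := al_pos_of H.conv (al_zero_pos A) h1
  rcases ratio_dichotomy hpos (H.conv A) ((finrank K (T.H A) : ℝ) ^ 2) with ⟨c, hc, hcB, h⟩ | hB
  · obtain ⟨n₀, hn₀⟩ := small_of H.grow H.coev C hc hcB h 2
    refine ⟨n₀, fun n hn => ?_⟩
    have h1 : (2 : ℝ) * al A n ≤ finrank K (C.C (zz A n)) := by exact_mod_cast hn₀ n hn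
    have h2 : (0 : ℝ) ≤ al A n := Nat.cast_nonneg _
    nlinarith
  have hD : 0 < finrank K (T.H A) := by
    rw [Nat.pos_iff_ne_zero]
    intro hD
    have h2 : a (T.pow A 1) LinearMap.id (T.pow A 1) LinearMap.id ≤ _ := a_le _ _
    have h3 : finrank K (T.H (T.pow A 1)) = 0 := by rw [finrank_pow, hD]; rfl
    rw [h3, mul_zero] at h2
    have : al A 1 ≤ 0 := h2
    omega
  push Not at heq
  obtain ⟨m, hm⟩ := heq
  have hlt : Ce (zz A m) < C.C (zz A m) := lt_of_le_of_ne (Ce_le C _) (Ne.symm hm)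
  have hbot : (⊥ : Submodule K (T.H (zz A m))) < Ce (zz A m) := by
    rw [bot_lt_iff_ne_bot]
    intro hb
    obtain ⟨c, hc, hinj⟩ := H.coev (T.pow A m)
    have hce : c T.e ∈ Ce (zz A m) := ⟨c, hc, rfl⟩
    have hce' : c T.e = 0 := by
      rw [hb] at hce
      exact (Submodule.mem_bot K).1 hce
    have h2 : (LinearMap.id : T.H (T.pow A m) →ₗ[K] T.H (T.pow A m)) = 0 :=
      hinj _ ((congrArg _ hce').trans (map_zero _))
    have h3 : 0 < finrank K (T.H (T.pow A m)) := by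
      rw [finrank_pow]; exact Nat.pow_pos hD
    have h4 : Nontrivial (T.H (T.pow A m)) := Module.nontrivial_of_finrank_pos h3
    obtain ⟨x, hx⟩ := exists_ne (0 : T.H (T.pow A m))
    exact hx (congrArg (fun f => f x) h2)
  let M : ℕ → Submodule K (T.H (zz A m)) := fun n =>
    if n = 0 then ⊥ else if n = 1 then Ce (zz A m) else C.C (zz A m)
  obtain ⟨n₀, hn₀⟩ := H.low C A hB hD (zz A m) m (good_zz H.dual2 A m) M 2
    (fun n => by
      intro a ha x hx
      simp only [M] at hx ⊢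
      split_ifs at hx ⊢
      · rw [(Submodule.mem_bot K).1 hx, map_zero]; exact Submodule.zero_mem _
      · exact (CeC T).map a ha x hx
      · exact C.map a ha x hx)
    (fun n hn => by
      have : n = 0 ∨ n = 1 := by omega
      rcases this with rfl | rfl
      · simpa [M] using hbot
      · simpa [M] using hlt)
    (by simp [M]) ε hε
  refine ⟨n₀, fun n hn => ?_⟩
  have h2 := hn₀ n hn
  have h3 : (((2 : ℕ) : ℝ) - ε) = 2 - ε := by norm_num
  rw [h3] at h2
  exact h2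

/-- The standard conjecture follows from the vanishing of numerically trivial classes. -/
lemma stdD_of {X : T.Obj} (h : Nn T.one X = ⊥) : T.StdD X := by
  intro f hf h1
  have h2 : f ∈ Nn T.one X := by
    refine ⟨of_cor hf, fun v hv => ?_⟩
    have h3 : v ∘ₗ f = 0 := by
      induction hv using Submodule.span_induction with
      | mem v hv => exact h1 v hv
      | zero => exact LinearMap.zero_comp f
      | add x y _ _ hx hy => rw [LinearMap.add_comp, hx, hy, add_zero]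
      | smul c x _ hx => rw [LinearMap.smul_comp, hx, smul_zero]
    rw [h3, LinearMap.comp_zero, map_zero]
  rw [h, Submodule.mem_bot] at h2
  exact h2

lemma dim_eq (X : T.Obj) : T.dim X = finrank K (Ce X) := by
  have h : T.dim X = finrank K (T.S T.one X) := rfl
  rw [h]
  let f : T.S T.one X →ₗ[K] T.H X := (LinearMap.applyₗ T.e) ∘ₗ (T.S T.one X).subtype
  have h1 : LinearMap.range f = Ce X := by
    rw [LinearMap.range_comp, Submodule.range_subtype]; rfl
  have h2 : Function.Injective f := by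
    rw [← LinearMap.ker_eq_bot, LinearMap.ker_eq_bot']
    intro u hu
    apply Subtype.ext
    by_contra h3
    exact (ne_zero_iff_e.1 h3) hu
  rw [← h1]
  exact (LinearMap.finrank_range_of_inj h2).symm

lemma rank_zz (H : Steps T) (A : T.Obj) (n : ℕ) : T.rank (zz A n) = al A n := by
  rw [H.rank]
  exact H.azz (T.pow A n)

open Filter Topology in
/-- The zero-infinity law, as a limit. -/
theorem tendsto_of {α β : ℕ → ℕ} (h : ∀ N : ℕ, ∃ n₀ : ℕ, ∀ n ≥ n₀, N * α n ≤ β n) :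
    Tendsto (fun n => (α n : ℝ) / β n) atTop (𝓝 0) := by
  rw [Metric.tendsto_atTop]
  intro ε hε
  obtain ⟨N, hN⟩ := exists_nat_gt (1 / ε)
  have hN0 : (0 : ℝ) < N := lt_trans (by positivity) hN
  obtain ⟨n₀, hn₀⟩ := h N
  refine ⟨n₀, fun n hn => ?_⟩
  rw [Real.dist_eq, sub_zero, abs_of_nonneg (by positivity)]
  have h1 : (N : ℝ) * α n ≤ β n := by exact_mod_cast hn₀ n hn
  rcases Nat.eq_zero_or_pos (β n) with h2 | h2
  · rw [h2, Nat.cast_zero, div_zero]; exact hε
  · have h3 : (0 : ℝ) < β n := by exact_mod_cast h2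
    rw [div_lt_iff₀ h3]
    have h4 : 1 < N * ε := by
      rw [div_lt_iff₀ hε] at hN
      exact hN
    have h5 : (α n : ℝ) ≤ β n / N := by rw [le_div_iff₀ hN0]; linarith
    have h6 : (β n : ℝ) / N < ε * β n := by
      rw [div_lt_iff₀ hN0]
      nlinarith
    exact lt_of_le_of_lt h5 h6

end Pool.Agent.Y121.ZI.NCTheory
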