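import Pool.Agent.Y121.ZI.KunDefs

/-!
# Classes generated by `K_0` and a set of operators: definitions
-/

universe u v w

namespace Pool.Agent.Y121.ZI

section

variable {K : Type u} [Field K] {Obj : Type v} (H : Obj → Type w) [∀ A, AddCommGroup (H A)]
    [∀ A, Module K (H A)] (ten : Obj → Obj → Obj) (kun : ∀ A B, Kun K (H A) (H B) (H (ten A B)))

/-- The spaces `S X Y` of maps `H X → H Y` are closed under linear combinations, composition and
tensor products. -/
def ClosedSystem (S : ∀ X Y, Maps K (H X) (H Y)) : Prop :=
  (∀ X Y, Scaled (S X Y)) ∧ (∀ X Y Z, CompIn (S X Y) (S Y Z) (S X Z)) ∧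
    ∀ X Y Z W, TenIn (kun X Z) (kun Y W) (S X Y) (S Z W) (S (ten X Z) (ten Y W))

/-- The values at `e : H one` of the maps in the smallest closed system which contains the maps in
`cor` and the operators in `P` on `H A`. -/
def closedValues (cor : ∀ X Y, Maps K (H X) (H Y)) (one : Obj) (e : H one) (A : Obj)
    (P : Set (H A →ₗ[K] H A)) (X : Obj) : Submodule K (H X) :=
  ⨅ S : ∀ X Y, Maps K (H X) (H Y), ⨅ _ : ClosedSystem H ten kun S ∧ cor ≤ S ∧ P ⊆ S A A,
    values (S one X) e

end

namespace NCTheory

variable {K : Type u} [Field K] (T : NCTheory.{u, v, w} K)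

/-- The classes on `X` generated (by linear combinations, compositions and tensor products) by the
correspondences and the operators in `P` on `H A`. -/
def classesOf (A : T.Obj) (P : Set (T.H A →ₗ[K] T.H A)) (X : T.Obj) : Submodule K (T.H X) :=
  closedValues T.H T.ten T.kun T.cor T.one T.e A P X

end NCTheory

end Pool.Agent.Y121.ZI
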