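import Pool.Agent.Y121.ZI.ILaw
import Pool.Agent.Y121.ZI.OpDefs
import Pool.Agent.Y447.ZI.Clas

/-!
# The index law for the classes generated by a set of operators
-/

universe u v w

namespace Pool.Agent.Y121.ZI.Ops

open Pool.Agent.Y121.ZI Pool.Agent.Y121.ZI.NCTheory

variable {K : Type u} [Field K] {T : NCTheory.{u, v, w} K} {A : T.Obj}
  {P : Set (T.H A →ₗ[K] T.H A)}

/-- `S` is admissible. -/
def Adm (T : NCTheory.{u, v, w} K) (A : T.Obj) (P : Set (T.H A →ₗ[K] T.H A))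
    (S : ∀ X Y, Maps K (T.H X) (T.H Y)) : Prop :=
  ClosedSystem T.H T.ten T.kun S ∧ T.cor ≤ S ∧ P ⊆ S A A

/-- The system generated by the correspondences and `P`. -/
def gen (T : NCTheory.{u, v, w} K) (A : T.Obj) (P : Set (T.H A →ₗ[K] T.H A)) (X Y : T.Obj) :
    Maps K (T.H X) (T.H Y) :=
  ⨅ S : {S : ∀ X Y, Maps K (T.H X) (T.H Y) // Adm T A P S}, S.1 X Y

lemma mem_gen {X Y : T.Obj} {f : T.H X →ₗ[K] T.H Y} :
    f ∈ gen T A P X Y ↔ ∀ S : ∀ X Y, Maps K (T.H X) (T.H Y), Adm T A P S → f ∈ S X Y := by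
  rw [gen, AddSubgroup.mem_iInf]
  exact ⟨fun h S hS => h ⟨S, hS⟩, fun h S => h S.1 S.2⟩

lemma adm_gen : Adm T A P (gen T A P) := by
  refine ⟨⟨fun X Y f hf c => ?_, fun X Y Z f hf g hg => ?_, fun X Y Z W f hf g hg => ?_⟩,
    fun X Y f hf => ?_, fun f hf => ?_⟩
  · exact mem_gen.2 fun S hS => hS.1.1 X Y f (mem_gen.1 hf S hS) c
  · exact mem_gen.2 fun S hS => hS.1.2.1 X Y Z f (mem_gen.1 hf S hS) g (mem_gen.1 hg S hS)
  · exact mem_gen.2 fun S hS => hS.1.2.2 X Y Z W f (mem_gen.1 hf S hS) g (mem_gen.1 hg S hS)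
  · exact mem_gen.2 fun S hS => hS.2.1 X Y hf
  · exact mem_gen.2 fun S hS => hS.2.2 hf

lemma mem_values {X : T.Obj} {S : Maps K (T.H T.one) (T.H X)} (hS : Scaled S) {x : T.H X} :
    x ∈ values S T.e ↔ ∃ f ∈ S, f T.e = x := by
  constructor
  · intro hx
    rw [values] at hx
    induction hx using Submodule.span_induction with
    | mem x hx => exact hx
    | zero => exact ⟨0, S.zero_mem, rfl⟩
    | add x y _ _ hx hy =>
      obtain ⟨f, hf, rfl⟩ := hx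
      obtain ⟨g, hg, rfl⟩ := hy
      exact ⟨f + g, S.add_mem hf hg, rfl⟩
    | smul c x _ hx =>
      obtain ⟨f, hf, rfl⟩ := hx
      exact ⟨c • f, hS f hf c, rfl⟩
  · exact fun h => Submodule.subset_span h

lemma mem_classesOf {X : T.Obj} {x : T.H X} :
    x ∈ T.classesOf A P X ↔ ∃ f ∈ gen T A P T.one X, f T.e = x := by
  rw [NCTheory.classesOf, closedValues]
  simp only [Submodule.mem_iInf]
  constructor
  · intro h
    exact (mem_values (adm_gen.1.1 _ _)).1 (h (gen T A P) adm_gen)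
  · rintro ⟨f, hf, rfl⟩ S hS
    exact (mem_values (hS.1.1 _ _)).2 ⟨f, mem_gen.1 hf S hS, rfl⟩

lemma S_le_gen {X Y : T.Obj} {f : T.H X →ₗ[K] T.H Y} (hf : f ∈ T.S X Y) :
    f ∈ gen T A P X Y := by
  have hf' : f ∈ Submodule.span K (T.cor X Y : Set (T.H X →ₗ[K] T.H Y)) := hf
  clear hf
  induction hf' using Submodule.span_induction with
  | mem f hf => exact adm_gen.2.1 _ _ hf
  | zero => exact AddSubgroup.zero_mem _
  | add f g hf hg hf' hg' => exact AddSubgroup.add_mem _ hf' hg'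
  | smul c f hf hf' => exact adm_gen.1.1 _ _ f hf' c

lemma classesOf_op {X Y : T.Obj} {ψ : T.H X →ₗ[K] T.H Y} (hψ : ψ ∈ gen T A P X Y) {x : T.H X}
    (hx : x ∈ T.classesOf A P X) : ψ x ∈ T.classesOf A P Y := by
  obtain ⟨φ, hφ, rfl⟩ := mem_classesOf.1 hx
  exact mem_classesOf.2 ⟨ψ ∘ₗ φ, adm_gen.1.2.1 _ _ _ φ hφ ψ hψ, rfl⟩

/-- A stable system of classes. -/
def cls (T : NCTheory.{u, v, w} K) (A : T.Obj) (P : Set (T.H A →ₗ[K] T.H A)) :
    NCTheory.Cls T where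
  C := T.classesOf A P
  map := fun _ hf _ hx => classesOf_op (S_le_gen hf) hx
  one := mem_classesOf.2 ⟨LinearMap.id, adm_gen.2.1 _ _ (T.cor_id _), rfl⟩

/-- The spans of the correspondences, as groups. -/
def grpS (T : NCTheory.{u, v, w} K) (X Y : T.Obj) : Maps K (T.H X) (T.H Y) :=
  (T.S X Y).toAddSubgroup

lemma gen_le (h : ∀ q ∈ P, q ∈ T.S A A) {X Y : T.Obj} {f : T.H X →ₗ[K] T.H Y}
    (hf : f ∈ gen T A P X Y) : f ∈ T.S X Y :=
  mem_gen.1 hf (grpS T) ⟨⟨fun _ _ _ hf c => Submodule.smul_mem _ c hf,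
    fun _ _ _ _ hf _ hg => S_comp hf hg, fun _ _ _ _ _ hf _ hg => S_ex hf hg⟩,
    fun _ _ _ hf => of_cor hf, fun _ hf => h _ hf⟩

/-- Descent of operators from `A ⊗ 1`. -/
lemma mem_S_of_ten {π : T.H A →ₗ[K] T.H A}
    (h : ex π (LinearMap.id : T.H T.one →ₗ[K] T.H T.one) ∈
      T.S (T.ten A T.one) (T.ten A T.one)) : π ∈ T.S A A := by
  obtain ⟨ρ, hρ, ρ', hρ', h8, h9⟩ := exists_runit A
  have h10 : π = ρ ∘ₗ ex π (LinearMap.id : T.H T.one →ₗ[K] T.H T.one) ∘ₗ ρ' := by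
    apply LinearMap.ext
    intro x
    rw [LinearMap.comp_apply, LinearMap.comp_apply, h9, ex_kx, LinearMap.id_apply, h8]
  rw [h10]
  exact S_comp (S_comp hρ' h) hρ

lemma iff_ops [CharZero K] : (∀ n, T.classesOf A P (T.bi A n n) ≤ T.alg (T.bi A n n)) ↔
    ∀ q ∈ P, q ∈ T.S A A := by
  constructor
  · intro h π hπP
    obtain ⟨c, hc, hinj, hsur⟩ := Pool.Agent.Y447.ZI.clas T (T.pow A 1)
    have h0 : π ∈ gen T A P A A := adm_gen.2.2 hπP
    have h1 : (ex π (LinearMap.id : T.H T.one →ₗ[K] T.H T.one) :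
        T.H (T.pow A 1) →ₗ[K] T.H (T.pow A 1)) ∈ gen T A P (T.pow A 1) (T.pow A 1) :=
      adm_gen.1.2.2 _ _ _ _ _ h0 _ (adm_gen.2.1 _ _ (T.cor_id _))
    have h2 : (ex (ex π (LinearMap.id : T.H T.one →ₗ[K] T.H T.one))
          (LinearMap.id : T.H (T.op (T.pow A 1)) →ₗ[K] T.H (T.op (T.pow A 1))) :
        T.H (rr (T.pow A 1)) →ₗ[K] T.H (rr (T.pow A 1))) ∈
          gen T A P (rr (T.pow A 1)) (rr (T.pow A 1)) :=
      adm_gen.1.2.2 _ _ _ _ _ h1 _ (adm_gen.2.1 _ _ (T.cor_id _))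
    have h3 : c T.e ∈ T.classesOf A P (rr (T.pow A 1)) :=
      (cls T A P).map c hc _ (cls T A P).one
    have h4 := h 1 (classesOf_op h2 h3)
    rw [alg_eq] at h4
    obtain ⟨w, hw, hwe⟩ := h4
    obtain ⟨u, hu, hue⟩ := hsur w hw
    obtain ⟨π', hπ'⟩ : ∃ π' : T.H (T.pow A 1) →ₗ[K] T.H (T.pow A 1),
        π' = (ex π (LinearMap.id : T.H T.one →ₗ[K] T.H T.one) :) := ⟨_, rfl⟩
    have h5 : u - π' = 0 := by
      apply hinj
      have h6 : (ex (u - π')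
          (LinearMap.id : T.H (T.op (T.pow A 1)) →ₗ[K] T.H (T.op (T.pow A 1))) :
          T.H (rr (T.pow A 1)) →ₗ[K] T.H (rr (T.pow A 1))) =
          ex u LinearMap.id - ex π' LinearMap.id := by
        rw [sub_eq_add_neg, ex_add_left, ← neg_one_smul K π', ex_smul_left,
          neg_one_smul, ← sub_eq_add_neg]
      rw [h6, LinearMap.sub_apply, sub_eq_zero, hπ']
      exact hue.trans hwe
    apply mem_S_of_ten
    have h8 : u = π' := sub_eq_zero.1 h5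
    rw [hπ'] at h8
    rw [← h8]
    exact hu
  · intro h n x hx
    obtain ⟨φ, hφ, rfl⟩ := mem_classesOf.1 hx
    rw [alg_eq]
    exact ⟨φ, gen_le h hφ, rfl⟩

/-- **The index law for operators.** -/
theorem index_ops [CharZero K] (A : T.Obj) [Nontrivial (T.H A)] (P : Set (T.H A →ₗ[K] T.H A)) :
    ∃ N : ℕ∞, 1 ≤ N ∧ T.HasIndex (T.classesOf A P) A N ∧
      (N = 1 ↔ (∀ q ∈ P, q ∈ T.S A A) ∧ ∀ m n, T.StdD (T.bi A m n)) ∧
      (N ≠ ⊤ → (∀ m n, T.StdD (T.bi A m n)) ∧ T.Generated (T.classesOf A P) A N) := by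
  rw [← iff_ops]
  exact NCTheory.index_law (cls T A P) A

/-- Nondegeneracy of the trace form. -/
lemma Nn_self [CharZero K] (hD : ∀ m n, T.StdD (T.bi A m n)) : Nn A A = ⊥ := by
  rw [eq_bot_iff]
  intro u hu
  have h1 : (ex u (LinearMap.id : T.H T.one →ₗ[K] T.H T.one) :
      T.H (T.pow A 1) →ₗ[K] T.H (T.pow A 1)) ∈ Nn (T.pow A 1) (T.pow A 1) :=
    ((steps T).num2 A A T.one u hu).1
  have h2 := ((steps T).num2 (T.pow A 1) (T.pow A 1) (T.op (T.pow A 1)) _ h1).1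
  obtain ⟨c, hc, hinj⟩ := (steps T).coev (T.pow A 1)
  have h3 := ((steps T).num1 T.one (rr (T.pow A 1)) (rr (T.pow A 1))).2 _ h2 c hc
  have h4 : Nn T.one (rr (T.pow A 1)) = ⊥ := Pool.Agent.Y689.ZI.stdd T _ (hD 1 1)
  rw [h4, Submodule.mem_bot] at h3
  have h5 := hinj _ (by
    have := LinearMap.congr_fun h3 T.e
    exact this)
  rw [Submodule.mem_bot]
  obtain ⟨ρ, hρ, ρ', hρ', h8, h9⟩ := exists_runit A
  apply LinearMap.ext
  intro x
  have h6 : ex u (LinearMap.id : T.H T.one →ₗ[K] T.H T.one) (ρ' x) = 0 := by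
    have := LinearMap.congr_fun h5 (ρ' x)
    exact this
  rw [h9, ex_kx, LinearMap.id_apply] at h6
  rw [← h8 (u x), h6, map_zero, LinearMap.zero_apply]

end Pool.Agent.Y121.ZI.Ops
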