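import Pool.Agent.Y121.ZI.Ops
import Pool.Agent.Y121.ZI.WeilDefs

/-!
# The index law for powers
-/

universe u v w

namespace Pool.Agent.Y121.ZI.NCTheory

open Module

variable {K : Type u} [Field K] {T : NCTheory.{u, v, w} K}

/-- `X` is a direct summand of `Y`. -/
def Ret (X Y : T.Obj) : Prop := ∃ i ∈ T.S X Y, ∃ p ∈ T.S Y X, p ∘ₗ i = LinearMap.id

lemma Ret.of_iso {X Y : T.Obj} (h : OIso X Y) : Ret X Y := by
  obtain ⟨θ, hθ, θ', hθ', h1, -, -⟩ := h
  exact ⟨θ, hθ, θ', hθ', h1⟩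

lemma Ret.trans {X Y Z : T.Obj} (h : Ret X Y) (h' : Ret Y Z) : Ret X Z := by
  obtain ⟨i, hi, p, hp, h1⟩ := h
  obtain ⟨j, hj, q, hq, h2⟩ := h'
  refine ⟨j ∘ₗ i, S_comp hi hj, p ∘ₗ q, S_comp hq hp, ?_⟩
  calc (p ∘ₗ q) ∘ₗ j ∘ₗ i = p ∘ₗ (q ∘ₗ j) ∘ₗ i := rfl
    _ = _ := by rw [h2, LinearMap.id_comp, h1]

lemma Ret.ten {X Y Z W : T.Obj} (h : Ret X Y) (h' : Ret Z W) : Ret (T.ten X Z) (T.ten Y W) := by
  obtain ⟨i, hi, p, hp, h1⟩ := h
  obtain ⟨j, hj, q, hq, h2⟩ := h'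
  exact ⟨ex i j, S_ex hi hj, ex p q, S_ex hp hq, by rw [ex_comp, h1, h2, ex_id]⟩

lemma Ret.refl (X : T.Obj) : Ret X X := ⟨_, S_id, _, S_id, rfl⟩

lemma ret_one [CharZero K] {X : T.Obj} (h : PairIn (T.cor T.one X) (T.cor X T.one)) :
    Ret T.one X := by
  obtain ⟨f, hf, g, hg, h0⟩ := h
  obtain ⟨n, hn⟩ := T.cor_one _ (T.cor_comp T.one X T.one f hf g hg)
  have hn0 : (n : K) ≠ 0 := by
    intro h1
    have h2 : n = 0 := by exact_mod_cast h1
    exact h0 (by rw [hn, h2, zero_smul])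
  refine ⟨f, of_cor hf, (n : K)⁻¹ • g, Submodule.smul_mem _ _ (of_cor hg), ?_⟩
  rw [LinearMap.smul_comp, hn, ← Int.cast_smul_eq_zsmul K, smul_smul, inv_mul_cancel₀ hn0, one_smul]

lemma ret_one_pow [CharZero K] (h : SelfDual T) (A : T.Obj) (n : ℕ) : Ret T.one (T.pow A n) := by
  induction n with
  | zero => exact Ret.refl _
  | succ n ih =>
    exact (Ret.of_iso (OIso.unit T.one).symm).trans (Ret.ten (ret_one (h.2 A)) ih)

lemma oiso_op (h : SelfDual T) (X : T.Obj) : OIso (T.op X) X := by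
  obtain ⟨f, hf, g, hg, h1, h2⟩ := h.1 X
  exact ⟨f, of_cor hf, g, of_cor hg, h1, h2, rfl⟩

lemma oiso_bi (h : SelfDual T) (A : T.Obj) (m n : ℕ) : OIso (T.bi A m n) (T.pow A (m + n)) :=
  (OIso.ten (PIso.refl _ _) (oiso_op h _)).trans (OIso.pow_add A m n)

lemma ret_pow_bi [CharZero K] (h : SelfDual T) (A : T.Obj) (n : ℕ) :
    Ret (T.pow A n) (T.bi A n n) :=
  (Ret.of_iso (OIso.runit (T.pow A n)).symm).trans
    (Ret.ten (Ret.refl _) ((ret_one_pow h A n).trans (Ret.of_iso (oiso_op h _).symm)))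

lemma Ret.le {X Y : T.Obj} (h : Ret X Y) (C : Cls T) (hY : C.C Y ≤ T.alg Y) :
    C.C X ≤ T.alg X := by
  obtain ⟨i, hi, p, hp, h1⟩ := h
  intro x hx
  have h2 := hY (C.map i hi x hx)
  rw [alg_eq] at h2 ⊢
  obtain ⟨u, hu, hue⟩ := h2
  refine ⟨p ∘ₗ u, S_comp hu hp, ?_⟩
  have h3 : p (u T.e) = p (i x) := congrArg p hue
  have h4 : p (i x) = x := LinearMap.congr_fun h1 x
  exact h3.trans h4

lemma Ret.std [CharZero K] {X Y : T.Obj} (h : Ret X Y) (hY : T.StdD Y) : T.StdD X := by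
  obtain ⟨i, hi, p, hp, h1⟩ := h
  apply stdD_of
  rw [eq_bot_iff]
  intro u hu
  have h2 := ((steps T).num1 T.one X Y).1 u hu i hi
  have h3 : Nn T.one Y = ⊥ := Pool.Agent.Y689.ZI.stdd T _ hY
  rw [h3, Submodule.mem_bot] at h2
  rw [Submodule.mem_bot]
  calc u = (p ∘ₗ i) ∘ₗ u := by rw [h1, LinearMap.id_comp]
    _ = p ∘ₗ (i ∘ₗ u) := rfl
    _ = 0 := by rw [h2, LinearMap.comp_zero]

lemma finrank_C_le {X Y : T.Obj} (h : OIso X Y) (C : Cls T) :
    finrank K (C.C X) ≤ finrank K (C.C Y) := by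
  obtain ⟨θ, hθ, θ', hθ', h1, -, -⟩ := h
  have hinj : Function.Injective θ := by
    intro x y hxy
    rw [← LinearMap.id_apply (R := K) x, ← LinearMap.id_apply (R := K) y, ← h1,
      LinearMap.comp_apply, LinearMap.comp_apply, hxy]
  have := T.fin Y
  calc finrank K (C.C X) = finrank K ((C.C X).map θ) :=
        (Submodule.equivMapOfInjective θ hinj (C.C X)).finrank_eq
    _ ≤ _ := Submodule.finrank_mono (by
      rintro _ ⟨x, hx, rfl⟩
      exact C.map θ hθ x hx)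

lemma finrank_C_eq {X Y : T.Obj} (h : OIso X Y) (C : Cls T) :
    finrank K (C.C X) = finrank K (C.C Y) :=
  le_antisymm (finrank_C_le h C) (finrank_C_le h.symm C)

lemma rank_eq_of [CharZero K] {X Y : T.Obj} (h : OIso X Y) : T.rank X = T.rank Y := by
  rw [(steps T).rank X, (steps T).rank Y]
  exact h.a_eq_right S_id S_id _ _

/-- **The index law for powers.** -/
theorem pow_law [CharZero K] (C : Cls T) (h : SelfDual T) (A : T.Obj) [Nontrivial (T.H A)] :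
    ∃ N : ℕ∞, 1 ≤ N ∧ T.PowIndex C.C A N ∧
      (N = 1 ↔ (∀ n, C.C (T.pow A n) ≤ T.alg (T.pow A n)) ∧ ∀ n, T.StdD (T.pow A n)) ∧
      (N ≠ ⊤ → (∀ n, T.StdD (T.pow A n)) ∧ T.PowGenerated C.C A N) := by
  have e1 : (∀ n, C.C (T.bi A n n) ≤ T.alg (T.bi A n n)) ↔
      ∀ n, C.C (T.pow A n) ≤ T.alg (T.pow A n) :=
    ⟨fun k n => (ret_pow_bi h A n).le C (k n),
      fun k n => (Ret.of_iso (oiso_bi h A n n)).le C (k _)⟩
  have e2 : (∀ m n, T.StdD (T.bi A m n)) ↔ ∀ n, T.StdD (T.pow A n) :=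
    ⟨fun k n => (ret_pow_bi h A n).std (k n n),
      fun k m n => (Ret.of_iso (oiso_bi h A m n)).std (k _)⟩
  obtain ⟨N, h1, h2, h3, h4⟩ := index_law C A
  rw [e1, e2] at h3
  rw [e2] at h4
  refine ⟨N, h1, ?_, h3, fun hN => ⟨(h4 hN).1, ?_⟩⟩
  · have e3 : (fun n => dimOf (C.C (T.pow A (2 * n)))) = fun n => dimOf (C.C (T.bi A n n)) := by
      funext n
      rw [two_mul]
      exact (finrank_C_eq (oiso_bi h A n n) C).symm
    have e4 : (fun n => T.rank (T.pow A (2 * n))) = fun n => T.rank (T.bi A n n) := by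
      funext n
      rw [two_mul]
      exact (rank_eq_of (oiso_bi h A n n)).symm
    rw [PowIndex, e3, e4]
    exact h2
  · obtain ⟨m, r, z, k1, k2, k3⟩ := (h4 hN).2
    obtain ⟨θ, hθ, θ', hθ', t1, t2, -⟩ := oiso_bi h A m m
    refine ⟨m + m, r, fun i => θ (z i), k1, fun i => C.map θ hθ _ (k2 i), fun n x hx => ?_⟩
    obtain ⟨i, hi, p, hp, s1⟩ := ret_pow_bi h A n
    have hx' := k3 n (C.map i hi x hx)
    have hpx : p (i x) = x := LinearMap.congr_fun s1 x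
    obtain ⟨a, ha, b, hb, hab⟩ := Submodule.mem_sup.1 hx'
    have hab' : x = p a + p b := by rw [← map_add, hab, hpx]
    rw [hab']
    refine Submodule.add_mem_sup ?_ ?_
    · change p a ∈ T.alg (T.pow A n)
      have ha' : a ∈ T.alg (T.bi A n n) := ha
      rw [alg_eq] at ha' ⊢
      obtain ⟨u, hu, rfl⟩ := ha'
      exact ⟨p ∘ₗ u, S_comp hu hp, rfl⟩
    · have hb' : b ∈ Submodule.span K
          {x | ∃ f ∈ T.cor (T.bi A m m) (T.bi A n n), ∃ i, f (z i) = x} := hb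
      clear hb hab hab'
      induction hb' using Submodule.span_induction with
      | mem b hb =>
        obtain ⟨f, hf, j, rfl⟩ := hb
        have h5 : p (f (z j)) = (p ∘ₗ f ∘ₗ θ') (θ (z j)) := by
          have h6 : θ' (θ (z j)) = z j := LinearMap.congr_fun t1 (z j)
          rw [LinearMap.comp_apply, LinearMap.comp_apply, h6]
        rw [h5]
        exact S_apply_mem (z := fun i => θ (z i)) (S_comp (S_comp hθ' (of_cor hf)) hp) j
      | zero => rw [map_zero]; exact Submodule.zero_mem _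
      | add x y _ _ hx hy => rw [map_add]; exact Submodule.add_mem _ hx hy
      | smul c x _ hx => rw [map_smul]; exact Submodule.smul_mem _ c hx

end Pool.Agent.Y121.ZI.NCTheory
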