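import Pool.Agent.Y121.ZI.WeilDefs

/-!
# Gradings and rational coefficients: definitions
-/

universe u v w

namespace Pool.Agent.Y121.ZI

set_option linter.checkUnivs false

section

variable {K : Type u} [Field K] {V W : Type v} [AddCommGroup V] [Module K V] [AddCommGroup W]
  [Module K W]

/-- The maps `π i` are the projectors to the summands of a grading `V = V^0 ⊕ ... ⊕ V^(d-1)`, and
`p` is multiplication by `(-1)^i` on `V^i`. -/
def Grading (p : V →ₗ[K] V) (π : ℕ → V →ₗ[K] V) : Prop :=
  (∀ i x, π i (π i x) = π i x) ∧ (∀ i j x, i ≠ j → π i (π j x) = 0) ∧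
    (∀ i x, p (π i x) = (-1 : K) ^ i • π i x) ∧ ∃ d, ∀ x, ∑ i ∈ Finset.range d, π i x = x

/-- The traces of the maps `q ∘ f`, for `f` in `S`, are rational. -/
def RationalTraces (S : Maps K V V) (q : V →ₗ[K] V) : Prop :=
  ∀ f ∈ S, ∃ c : ℚ, LinearMap.trace K V (q ∘ₗ f) = (c : K)

/-- `q` is a rational combination of maps in `S`: a nonzero multiple of `q` belongs to `S`. -/
def RationalIn (S : Maps K V W) (q : V →ₗ[K] W) : Prop := ∃ n : ℕ, n ≠ 0 ∧ n • q ∈ S

end

/-- The formal properties of the cohomology `H X = ⊕ H^i(X)` of smooth projective varieties over a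
field for a Weil cohomology with coefficients in `K` (`ℓ`-adic, de Rham or crystalline cohomology),
with the maps induced by the cycles on `X × Y` (of all codimensions, with integral coefficients). -/
structure WeilTheory (K : Type u) [Field K] extends NCTheory.{u, v, w} K where
  dual : SelfDual toNCTheory
  /-- the projector `π_i` of `H X` to `H^i(X)`: the `i`-th Künneth component of the diagonal -/
  pr : ∀ X, ℕ → H X →ₗ[K] H X
  grading : ∀ X, Grading (par X) (pr X)
  /-- the traces on `H^i(X)` of the maps induced by cycles are rational (Deligne, Katz and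
  Messing) -/
  rat : ∀ X i, RationalTraces (cor X X) (pr X i)

end Pool.Agent.Y121.ZI
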