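import Pool.Agent.Y121.ZI.Pow
import Pool.Agent.Y121.ZI.RatDefs
import Pool.Agent.Y681.ZI.Tri
import Pool.Agent.Y67.ZI.Rat

/-!
# Rational coefficients
-/

universe u v w

namespace Pool.Agent.Y121.ZI.NCTheory

open Module

variable {K : Type u} [Field K] {T : NCTheory.{u, v, w} K}

lemma mem_S_of_rational [CharZero K] {X Y : T.Obj} {q : T.H X →ₗ[K] T.H Y}
    (h : RationalIn (T.cor X Y) q) : q ∈ T.S X Y := by
  obtain ⟨n, hn, h⟩ := h
  have hn' : (n : K) ≠ 0 := Nat.cast_ne_zero.2 hn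
  have h1 : q = (n : K)⁻¹ • (n • q) := by
    rw [← Nat.cast_smul_eq_nsmul K, smul_smul, inv_mul_cancel₀ hn', one_smul]
  rw [h1]
  exact Submodule.smul_mem _ _ (of_cor h)

/-- The trace form. -/
noncomputable def trForm (T : NCTheory.{u, v, w} K) (A : T.Obj) :
    (T.H A →ₗ[K] T.H A) →ₗ[K] (T.H A →ₗ[K] T.H A) →ₗ[K] K :=
  LinearMap.mk₂ K (fun x y => LinearMap.trace K (T.H A) (T.par A ∘ₗ y ∘ₗ x))
    (fun x x' y => by rw [LinearMap.comp_add, LinearMap.comp_add, map_add])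
    (fun c x y => by rw [LinearMap.comp_smul, LinearMap.comp_smul, map_smul])
    (fun x y y' => by rw [LinearMap.add_comp, LinearMap.comp_add, map_add])
    (fun c x y => by rw [LinearMap.smul_comp, LinearMap.comp_smul, map_smul])

lemma trForm_apply {A : T.Obj} (x y : T.H A →ₗ[K] T.H A) :
    trForm T A x y = LinearMap.trace K (T.H A) (T.par A ∘ₗ y ∘ₗ x) := rfl

theorem rationalIn_of [CharZero K] {A : T.Obj} (hN : Nn A A = ⊥) {q : T.H A →ₗ[K] T.H A}
    (hq : q ∈ T.S A A) (hr : ∀ f ∈ T.cor A A, ∃ c : ℚ,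
      LinearMap.trace K (T.H A) (T.par A ∘ₗ f ∘ₗ q) = (c : K)) : RationalIn (T.cor A A) q := by
  have := T.fin A
  refine Pool.Agent.Y67.ZI.rat (T.cor A A) (trForm T A) (fun x hx y hy => ?_)
    (fun x hx h => ?_) q hq (fun y hy => ?_)
  · obtain ⟨n, hn⟩ := Pool.Agent.Y681.ZI.tri T A (y ∘ₗ x) (T.cor_comp A A A x hx y hy)
    exact ⟨n, hn⟩
  · have h1 : x ∈ Nn A A := by
      refine ⟨hx, fun v hv => ?_⟩
      have hv' : v ∈ Submodule.span K (T.cor A A : Set (T.H A →ₗ[K] T.H A)) := hv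
      clear hv
      change trForm T A x v = 0
      induction hv' using Submodule.span_induction with
      | mem v hv => exact h v hv
      | zero => exact map_zero _
      | add v v' _ _ hv hv' => rw [map_add, hv, hv', add_zero]
      | smul c v _ hv => rw [map_smul, hv, smul_zero]
    rw [hN, Submodule.mem_bot] at h1
    exact h1
  · exact hr y hy

end Pool.Agent.Y121.ZI.NCTheory

namespace Pool.Agent.Y121.ZI.WeilTheory

open Module Pool.Agent.Y121.ZI.NCTheory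

variable {K : Type u} [Field K] {T : WeilTheory.{u, v, w} K}

lemma pr_par (X : T.Obj) (i : ℕ) : T.pr X i ∘ₗ T.par X = (-1 : K) ^ i • T.pr X i := by
  obtain ⟨h1, h2, h3, d, h4⟩ := T.grading X
  apply LinearMap.ext
  intro x
  rw [LinearMap.comp_apply, LinearMap.smul_apply]
  have h5 : ∀ j ∈ Finset.range d, T.pr X i (T.par X (T.pr X j x)) =
      (-1 : K) ^ i • T.pr X i (T.pr X j x) := by
    intro j _
    rw [h3, map_smul]
    by_cases hij : i = j
    · rw [hij]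
    · rw [h2 i j x hij, smul_zero, smul_zero]
  conv_lhs => rw [← h4 x]
  rw [map_sum, map_sum, Finset.sum_congr rfl h5, ← Finset.smul_sum, ← map_sum, h4]

lemma rat_pr [CharZero K] (X : T.Obj) (i : ℕ) : ∀ f ∈ T.cor X X, ∃ c : ℚ,
    LinearMap.trace K (T.H X) (T.par X ∘ₗ f ∘ₗ T.pr X i) = (c : K) := by
  intro f hf
  obtain ⟨c, hc⟩ := T.rat X i f hf
  refine ⟨(-1) ^ i * c, ?_⟩
  have h1 : LinearMap.trace K (T.H X) (T.par X ∘ₗ f ∘ₗ T.pr X i) =
      LinearMap.trace K (T.H X) ((T.pr X i ∘ₗ T.par X) ∘ₗ f) := by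
    rw [← LinearMap.comp_assoc, LinearMap.trace_comp_comm']
    rfl
  rw [h1, pr_par, LinearMap.smul_comp, map_smul, hc, smul_eq_mul]
  push_cast
  ring

lemma trace_rat [CharZero K] (X : T.Obj) {f : T.H X →ₗ[K] T.H X} (hf : f ∈ T.cor X X) :
    ∃ c : ℚ, LinearMap.trace K (T.H X) f = (c : K) := by
  obtain ⟨h1, h2, h3, d, h4⟩ := T.grading X
  choose c hc using fun i => T.rat X i f hf
  refine ⟨∑ i ∈ Finset.range d, c i, ?_⟩
  have h5 : f = ∑ i ∈ Finset.range d, T.pr X i ∘ₗ f := by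
    apply LinearMap.ext
    intro x
    rw [LinearMap.sum_apply]
    exact (h4 (f x)).symm
  conv_lhs => rw [h5]
  rw [map_sum, Finset.sum_congr rfl fun i _ => hc i]
  push_cast
  rfl

lemma rat_even [CharZero K] (X : T.Obj) : ∀ f ∈ T.cor X X, ∃ c : ℚ,
    LinearMap.trace K (T.H X) (T.par X ∘ₗ f ∘ₗ evenProj (T.par X)) = (c : K) := by
  intro f hf
  obtain ⟨n, hn⟩ := Pool.Agent.Y681.ZI.tri T.toNCTheory X f hf
  obtain ⟨c, hc⟩ := trace_rat X hf
  refine ⟨2⁻¹ * (n + c), ?_⟩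
  have h1 : T.par X ∘ₗ f ∘ₗ T.par X = f := by
    apply LinearMap.ext
    intro x
    rw [LinearMap.comp_apply, LinearMap.comp_apply, T.cor_par X X f hf, T.par_par]
  have h2 : T.par X ∘ₗ f ∘ₗ evenProj (T.par X) = (2 : K)⁻¹ • (T.par X ∘ₗ f + f) := by
    rw [evenProj, LinearMap.comp_smul, LinearMap.comp_smul, LinearMap.comp_add,
      LinearMap.comp_add, h1, LinearMap.comp_id]
  rw [h2, map_smul, map_add, hn, hc, smul_eq_mul]
  push_cast
  rfl

end Pool.Agent.Y121.ZI.WeilTheory
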