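import Pool.Agent.Y121.ZI.Span

/-!
# Ranks of the trace forms
-/

open scoped TensorProduct

universe u v w

namespace Pool.Agent.Y121.ZI.NCTheory

open Module Pool.Agent.Y133.Half

variable {K : Type u} [Field K] {T : NCTheory.{u, v, w} K}
variable {A B C D P Q X Y Z : T.Obj}

lemma par_par' (A : T.Obj) : T.par A ∘ₗ T.par A = LinearMap.id :=
  LinearMap.ext fun x => T.par_par A x

/-- The spaces of operators between the members of a family. -/
noncomputable def cat (X : Fin 2 → T.Obj) : Cat K (fun i => T.H (X i)) where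
  p i := T.par (X i)
  p_sq _ := par_par' _
  S i j := T.S (X j) (X i)
  one _ := S_id
  mul ha hb := S_comp hb ha
  comm ha := (S_par ha).symm

/-- The form `tr (p g u h v)` on pairs of operators in opposite directions. -/
noncomputable def F (A B : T.Obj) (g : T.H A →ₗ[K] T.H A) (h : T.H B →ₗ[K] T.H B) :
    T.S B A →ₗ[K] T.S A B →ₗ[K] K :=
  LinearMap.mk₂ K (fun u v => LinearMap.trace K (T.H A) (T.par A ∘ₗ g ∘ₗ
      (u : T.H B →ₗ[K] T.H A) ∘ₗ h ∘ₗ (v : T.H A →ₗ[K] T.H B)))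
    (fun u u' v => by
      simp only [Submodule.coe_add, LinearMap.add_comp, LinearMap.comp_add, map_add])
    (fun c u v => by
      simp only [Submodule.coe_smul, LinearMap.smul_comp, LinearMap.comp_smul, map_smul])
    (fun u v v' => by
      simp only [Submodule.coe_add, LinearMap.comp_add, map_add])
    (fun c u v => by
      simp only [Submodule.coe_smul, LinearMap.comp_smul, map_smul])

lemma F_apply (g : T.H A →ₗ[K] T.H A) (h : T.H B →ₗ[K] T.H B) (u : T.S B A) (v : T.S A B) :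
    F A B g h u v = LinearMap.trace K (T.H A) (T.par A ∘ₗ g ∘ₗ
      (u : T.H B →ₗ[K] T.H A) ∘ₗ h ∘ₗ (v : T.H A →ₗ[K] T.H B)) := rfl

/-- The rank of the trace form between the parts of `A` and `B` cut out by `g` and `h`. -/
noncomputable def a (A : T.Obj) (g : T.H A →ₗ[K] T.H A) (B : T.Obj) (h : T.H B →ₗ[K] T.H B) : ℕ :=
  rk (F A B g h)

/-- **The Cauchy-Schwarz inequality.** -/
theorem a_sq_le [CharZero K] {g : T.H A →ₗ[K] T.H A} (hg : g ∈ T.S A A) (hgg : g ∘ₗ g = g)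
    {h : T.H B →ₗ[K] T.H B} (hh : h ∈ T.S B B) (hhh : h ∘ₗ h = h) :
    a A g B h ^ 2 ≤ a A g A g * a B h B h := by
  let X : Fin 2 → T.Obj := ![A, B]
  exact (cat X).rk_B_sq_le' (i := 0) (j := 1) (g := g) hg hgg (g' := h) hh hhh

lemma a_comm {g : T.H A →ₗ[K] T.H A} {h : T.H B →ₗ[K] T.H B} (hh : h ∈ T.S B B) :
    a A g B h = a B h A g := by
  have h1 : (F A B g h).flip = F B A h g := by
    apply LinearMap.ext; intro v
    apply LinearMap.ext; intro u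
    rw [LinearMap.flip_apply, F_apply, F_apply]
    have e1 : T.par A ∘ₗ g ∘ₗ (u : T.H B →ₗ[K] T.H A) ∘ₗ h ∘ₗ (v : T.H A →ₗ[K] T.H B) =
        (T.par A ∘ₗ g ∘ₗ (u : T.H B →ₗ[K] T.H A)) ∘ₗ (h ∘ₗ (v : T.H A →ₗ[K] T.H B)) := rfl
    rw [e1, LinearMap.trace_comp_comm']
    congr 1
    have e2 := S_par v.2
    have e3 := S_par hh
    calc (h ∘ₗ (v : T.H A →ₗ[K] T.H B)) ∘ₗ T.par A ∘ₗ g ∘ₗ (u : T.H B →ₗ[K] T.H A) =
        h ∘ₗ ((v : T.H A →ₗ[K] T.H B) ∘ₗ T.par A) ∘ₗ g ∘ₗ (u : T.H B →ₗ[K] T.H A) := rfl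
      _ = (h ∘ₗ T.par B) ∘ₗ (v : T.H A →ₗ[K] T.H B) ∘ₗ g ∘ₗ (u : T.H B →ₗ[K] T.H A) := by
        rw [e2]; rfl
      _ = _ := by rw [e3]; rfl
  rw [a, a, ← h1, rk_flip]

lemma a_add_le (g g' : T.H A →ₗ[K] T.H A) (h : T.H B →ₗ[K] T.H B) :
    a A (g + g') B h ≤ a A g B h + a A g' B h := by
  have h1 : F A B (g + g') h = F A B g h + F A B g' h := by
    apply LinearMap.ext; intro u
    apply LinearMap.ext; intro v
    rw [LinearMap.add_apply, LinearMap.add_apply, F_apply, F_apply, F_apply, LinearMap.add_comp,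
      LinearMap.comp_add, map_add]
  rw [a, h1]
  exact rk_add_le _ _

lemma a_le (g : T.H A →ₗ[K] T.H A) (h : T.H B →ₗ[K] T.H B) :
    a A g B h ≤ finrank K (LinearMap.range g) * finrank K (T.H B) := by
  let L : (T.H B →ₗ[K] LinearMap.range g) →ₗ[K] (T.S A B →ₗ[K] K) :=
    { toFun := fun y =>
        { toFun := fun v => LinearMap.trace K (T.H A) (T.par A ∘ₗ (LinearMap.range g).subtype ∘ₗ
            y ∘ₗ h ∘ₗ (v : T.H A →ₗ[K] T.H B))
          map_add' := fun v v' => by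
            simp only [Submodule.coe_add, LinearMap.comp_add, map_add]
          map_smul' := fun c v => by
            simp only [Submodule.coe_smul, LinearMap.comp_smul, map_smul, RingHom.id_apply] }
      map_add' := fun y y' => by
        apply LinearMap.ext; intro v
        simp only [LinearMap.coe_mk, AddHom.coe_mk, LinearMap.add_apply, LinearMap.add_comp,
          LinearMap.comp_add, map_add]
      map_smul' := fun c y => by
        apply LinearMap.ext; intro v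
        simp only [LinearMap.coe_mk, AddHom.coe_mk, LinearMap.smul_apply, LinearMap.smul_comp,
          LinearMap.comp_smul, map_smul, RingHom.id_apply] }
  have h1 : LinearMap.range (F A B g h) ≤ LinearMap.range L := by
    rintro _ ⟨u, rfl⟩
    refine ⟨g.rangeRestrict ∘ₗ (u : T.H B →ₗ[K] T.H A), ?_⟩
    apply LinearMap.ext; intro v
    rfl
  have h2 := Submodule.finrank_mono h1
  have h3 := LinearMap.finrank_range_le L
  have h4 : finrank K (T.H B →ₗ[K] LinearMap.range g) =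
      finrank K (T.H B) * finrank K (LinearMap.range g) := Module.finrank_linearMap ..
  rw [a, rk]
  rw [h4, mul_comm] at h3
  exact h2.trans h3

/-- Invariance under isomorphisms. -/
lemma a_iso {θ : T.H A →ₗ[K] T.H B} (hθ : θ ∈ T.S A B) {θ' : T.H B →ₗ[K] T.H A}
    (hθ' : θ' ∈ T.S B A) (h1 : θ' ∘ₗ θ = LinearMap.id) (h2 : θ ∘ₗ θ' = LinearMap.id)
    {g : T.H A →ₗ[K] T.H A} {g' : T.H B →ₗ[K] T.H B} (hg : θ ∘ₗ g = g' ∘ₗ θ)
    (C : T.Obj) (h : T.H C →ₗ[K] T.H C) : a A g C h = a B g' C h := by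
  let f : T.S C B →ₗ[K] T.S C A :=
    { toFun := fun u => ⟨θ' ∘ₗ (u : T.H C →ₗ[K] T.H B), S_comp u.2 hθ'⟩
      map_add' := fun u u' => Subtype.ext (LinearMap.comp_add _ _ _)
      map_smul' := fun c u => Subtype.ext (LinearMap.comp_smul _ _ _) }
  let f' : T.S B C →ₗ[K] T.S A C :=
    { toFun := fun v => ⟨(v : T.H B →ₗ[K] T.H C) ∘ₗ θ, S_comp hθ v.2⟩
      map_add' := fun u u' => Subtype.ext (LinearMap.add_comp _ _ _)
      map_smul' := fun c u => Subtype.ext (LinearMap.smul_comp _ _ _) }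
  have hf : Function.Surjective f := fun u =>
    ⟨⟨θ ∘ₗ (u : T.H C →ₗ[K] T.H A), S_comp u.2 hθ⟩, Subtype.ext (by
      change θ' ∘ₗ θ ∘ₗ (u : T.H C →ₗ[K] T.H A) = u
      rw [← LinearMap.comp_assoc, h1, LinearMap.id_comp])⟩
  have hf' : Function.Surjective f' := fun v =>
    ⟨⟨(v : T.H A →ₗ[K] T.H C) ∘ₗ θ', S_comp hθ' v.2⟩, Subtype.ext (by
      change ((v : T.H A →ₗ[K] T.H C) ∘ₗ θ') ∘ₗ θ = v
      rw [LinearMap.comp_assoc, h1, LinearMap.comp_id])⟩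
  have key : (F A C g h).compl₁₂ f f' = F B C g' h := by
    apply LinearMap.ext; intro u
    apply LinearMap.ext; intro v
    rw [LinearMap.compl₁₂_apply, F_apply, F_apply]
    change LinearMap.trace K (T.H A) ((T.par A ∘ₗ g ∘ₗ θ' ∘ₗ (u : T.H C →ₗ[K] T.H B) ∘ₗ h ∘ₗ
      (v : T.H B →ₗ[K] T.H C)) ∘ₗ θ) = _
    rw [LinearMap.trace_comp_comm']
    congr 1
    calc θ ∘ₗ T.par A ∘ₗ g ∘ₗ θ' ∘ₗ (u : T.H C →ₗ[K] T.H B) ∘ₗ h ∘ₗ (v : T.H B →ₗ[K] T.H C) =
        (θ ∘ₗ T.par A) ∘ₗ g ∘ₗ θ' ∘ₗ (u : T.H C →ₗ[K] T.H B) ∘ₗ h ∘ₗ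
          (v : T.H B →ₗ[K] T.H C) := rfl
      _ = T.par B ∘ₗ (θ ∘ₗ g) ∘ₗ θ' ∘ₗ (u : T.H C →ₗ[K] T.H B) ∘ₗ h ∘ₗ
          (v : T.H B →ₗ[K] T.H C) := by rw [S_par hθ]; rfl
      _ = T.par B ∘ₗ g' ∘ₗ (θ ∘ₗ θ') ∘ₗ (u : T.H C →ₗ[K] T.H B) ∘ₗ h ∘ₗ
          (v : T.H B →ₗ[K] T.H C) := by rw [hg]; rfl
      _ = _ := by rw [h2, LinearMap.id_comp]
  rw [a, a, ← key]
  exact (rk_comp _ hf hf').symm

/-- `Z` and `Z'` are dual, and `f'` is the transpose of `f`. -/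
def DP (Z Z' : T.Obj) (f : T.H Z →ₗ[K] T.H Z) (f' : T.H Z' →ₗ[K] T.H Z') : Prop :=
  ∃ c ∈ T.S T.one (T.ten Z Z'), ∃ d ∈ T.S (T.ten Z Z') T.one, ∀ b : T.H Z →ₗ[K] T.H Z,
    d (ex b f' (c T.e)) = LinearMap.trace K (T.H Z) (T.par Z ∘ₗ f ∘ₗ b) • T.e

lemma exists_runit (A : T.Obj) : ∃ f ∈ T.S (T.ten A T.one) A, ∃ g ∈ T.S A (T.ten A T.one),
    (∀ x : T.H A, f (kx x T.e) = x) ∧ ∀ x : T.H A, g x = kx x T.e := by
  obtain ⟨f, hf, g, hg, h1, h2⟩ := exists_unit A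
  obtain ⟨s, hs, -, hs2, -⟩ := T.cor_swap A T.one
  obtain ⟨s', hs', hs1', -, -⟩ := T.cor_swap T.one A
  refine ⟨f ∘ₗ s, S_comp (of_cor hs) hf, s' ∘ₗ g, S_comp hg (of_cor hs'), fun x => ?_, fun x => ?_⟩
  · rw [LinearMap.comp_apply]
    have := hs2 x T.e T.line.2.2
    change s (kx x T.e) = kx T.e x at this
    rw [this, h1]
  · rw [LinearMap.comp_apply, h2]
    exact hs1' T.e x T.line.2.2

/-- **Moving a factor to the other side.** -/
theorem dual_move {X Y Z Z' : T.Obj} {f : T.H Z →ₗ[K] T.H Z} {f' : T.H Z' →ₗ[K] T.H Z'}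
    (hD : DP Z Z' f f') (g : T.H X →ₗ[K] T.H X) (h : T.H Y →ₗ[K] T.H Y) :
    a (T.ten X Z) (ex g f) Y h ≤ a X g (T.ten Y Z') (ex h f') := by
  obtain ⟨c, hc, d, hd, hcd⟩ := hD
  obtain ⟨ρ, hρ, ρ', hρ', hρ1, hρ2⟩ := exists_runit X
  obtain ⟨α, hα, α', hα', hα1, hα2⟩ := exists_assoc X Z Z'
  have hin : T.S T.one T.one ≠ ⊥ ∨ True := Or.inr trivial
  have hΦ : ∀ v ∈ T.S (T.ten X Z) Y,
      ex v (LinearMap.id : T.H Z' →ₗ[K] T.H Z') ∘ₗ α' ∘ₗ
        ex (LinearMap.id : T.H X →ₗ[K] T.H X) c ∘ₗ ρ' ∈ T.S X (T.ten Y Z') := fun v hv =>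
    S_comp (S_comp (S_comp hρ' (S_ex S_id hc)) hα') (S_ex hv S_id)
  have hΨ : ∀ u ∈ T.S Y (T.ten X Z),
      ρ ∘ₗ ex (LinearMap.id : T.H X →ₗ[K] T.H X) d ∘ₗ α ∘ₗ
        ex u (LinearMap.id : T.H Z' →ₗ[K] T.H Z') ∈ T.S (T.ten Y Z') X := fun u hu =>
    S_comp (S_comp (S_comp (S_ex hu S_id) hα) (S_ex S_id hd)) hρ
  let Φ : T.S (T.ten X Z) Y →ₗ[K] T.S X (T.ten Y Z') :=
    { toFun := fun v => ⟨_, hΦ v v.2⟩
      map_add' := fun v v' => Subtype.ext (by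
        simp only [Submodule.coe_add, ex_add_left, LinearMap.add_comp])
      map_smul' := fun r v => Subtype.ext (by
        simp only [Submodule.coe_smul, ex_smul_left, LinearMap.smul_comp, RingHom.id_apply]) }
  let Ψ : T.S Y (T.ten X Z) →ₗ[K] T.S (T.ten Y Z') X :=
    { toFun := fun v => ⟨_, hΨ v v.2⟩
      map_add' := fun v v' => Subtype.ext (by
        simp only [Submodule.coe_add, ex_add_left, LinearMap.comp_add])
      map_smul' := fun r v => Subtype.ext (by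
        simp only [Submodule.coe_smul, ex_smul_left, LinearMap.comp_smul, RingHom.id_apply]) }
  -- the trace identity
  have key : ∀ w : T.H (T.ten X Z) →ₗ[K] T.H (T.ten X Z),
      LinearMap.trace K (T.H X) (T.par X ∘ₗ g ∘ₗ ρ ∘ₗ
        ex (LinearMap.id : T.H X →ₗ[K] T.H X) d ∘ₗ α ∘ₗ ex w f' ∘ₗ α' ∘ₗ
          ex (LinearMap.id : T.H X →ₗ[K] T.H X) c ∘ₗ ρ') =
        LinearMap.trace K (T.H (T.ten X Z)) (T.par (T.ten X Z) ∘ₗ ex g f ∘ₗ w) := by
    intro w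
    induction w using end_induction with
    | h0 x b =>
      have h1 : ρ ∘ₗ ex (LinearMap.id : T.H X →ₗ[K] T.H X) d ∘ₗ α ∘ₗ ex (ex x b) f' ∘ₗ α' ∘ₗ
          ex (LinearMap.id : T.H X →ₗ[K] T.H X) c ∘ₗ ρ' =
          LinearMap.trace K (T.H Z) (T.par Z ∘ₗ f ∘ₗ b) • x := by
        apply LinearMap.ext
        intro y
        have h2 : α ∘ₗ ex (ex x b) f' ∘ₗ α' = ex x (ex b f') := by
          apply kx_ext₃'
          intro p q r
          simp only [LinearMap.comp_apply, hα2, ex_kx, hα1]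
        have h3 : (α ∘ₗ ex (ex x b) f' ∘ₗ α') (kx y (c T.e)) = kx (x y) (ex b f' (c T.e)) := by
          rw [h2, ex_kx]
        simp only [LinearMap.comp_apply] at h3 ⊢
        rw [hρ2, ex_kx, LinearMap.id_apply, h3, ex_kx, LinearMap.id_apply, hcd, kx_smul_right,
          map_smul, hρ1, LinearMap.smul_apply]
      rw [h1, par_ex, ex_comp, ex_comp, trace_ex, LinearMap.comp_smul, LinearMap.comp_smul,
        map_smul, smul_eq_mul, mul_comm]
    | ha u v hu hv =>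
      simp only [ex_add_left, LinearMap.add_comp, LinearMap.comp_add, map_add] at hu hv ⊢
      rw [hu, hv]
  have hkey : (F X (T.ten Y Z') g (ex h f')).compl₁₂ Ψ Φ = F (T.ten X Z) Y (ex g f) h := by
    apply LinearMap.ext; intro u
    apply LinearMap.ext; intro v
    rw [LinearMap.compl₁₂_apply, F_apply, F_apply]
    refine Eq.trans ?_ (key ((u : T.H Y →ₗ[K] T.H (T.ten X Z)) ∘ₗ h ∘ₗ
      (v : T.H (T.ten X Z) →ₗ[K] T.H Y)))
    congr 1
    have e1 : ex ((u : T.H Y →ₗ[K] T.H (T.ten X Z)) ∘ₗ h ∘ₗ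
        (v : T.H (T.ten X Z) →ₗ[K] T.H Y)) f' =
        ex (u : T.H Y →ₗ[K] T.H (T.ten X Z)) (LinearMap.id : T.H Z' →ₗ[K] T.H Z') ∘ₗ ex h f' ∘ₗ
          ex (v : T.H (T.ten X Z) →ₗ[K] T.H Y) (LinearMap.id : T.H Z' →ₗ[K] T.H Z') := by
      rw [ex_comp, ex_comp, LinearMap.comp_id, LinearMap.id_comp]
    rw [e1]
    rfl
  rw [a, a, ← hkey]
  exact rk_comp_le _ _ _

end Pool.Agent.Y121.ZI.NCTheory
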