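import Pool.Agent.Y121.ZI.Defs
import Pool.Agent.Y133.Half.BC
import Pool.Agent.Y133.Half.Key

/-!
# The spans of the correspondences
-/

open scoped TensorProduct

universe u v w

namespace Pool.Agent.Y121.ZI.NCTheory

open Module Pool.Agent.Y133.Half

variable {K : Type u} [Field K] (T : NCTheory.{u, v, w} K)

instance (A : T.Obj) : FiniteDimensional K (T.H A) := T.fin A

/-- The span of the correspondences. -/
def S (A B : T.Obj) : Submodule K (T.H A →ₗ[K] T.H B) :=
  Submodule.span K (T.cor A B : Set (T.H A →ₗ[K] T.H B))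

variable {T}
variable {A B C D P Q X Y Z : T.Obj}

lemma of_cor {f : T.H A →ₗ[K] T.H B} (h : f ∈ T.cor A B) : f ∈ T.S A B :=
  Submodule.subset_span h

lemma S_id : (LinearMap.id : T.H A →ₗ[K] T.H A) ∈ T.S A A := of_cor (T.cor_id A)

lemma S_comp {f : T.H A →ₗ[K] T.H B} (hf : f ∈ T.S A B) {g : T.H B →ₗ[K] T.H C}
    (hg : g ∈ T.S B C) : g ∘ₗ f ∈ T.S A C := by
  induction hf using Submodule.span_induction with
  | mem f hf =>
    induction hg using Submodule.span_induction with
    | mem g hg => exact of_cor (T.cor_comp A B C f hf g hg)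
    | zero => rw [LinearMap.zero_comp]; exact Submodule.zero_mem _
    | add x y _ _ hx hy => rw [LinearMap.add_comp]; exact Submodule.add_mem _ hx hy
    | smul c x _ hx => rw [LinearMap.smul_comp]; exact Submodule.smul_mem _ _ hx
  | zero => rw [LinearMap.comp_zero]; exact Submodule.zero_mem _
  | add x y _ _ hx hy => rw [LinearMap.comp_add]; exact Submodule.add_mem _ hx hy
  | smul c x _ hx => rw [LinearMap.comp_smul]; exact Submodule.smul_mem _ _ hx

lemma S_par {f : T.H A →ₗ[K] T.H B} (hf : f ∈ T.S A B) : f ∘ₗ T.par A = T.par B ∘ₗ f := by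
  induction hf using Submodule.span_induction with
  | mem f hf => exact LinearMap.ext fun x => T.cor_par A B f hf x
  | zero => rw [LinearMap.comp_zero, LinearMap.zero_comp]
  | add x y _ _ hx hy => rw [LinearMap.comp_add, LinearMap.add_comp, hx, hy]
  | smul c x _ hx => rw [LinearMap.comp_smul, LinearMap.smul_comp, hx]

/-- External product of vectors. -/
def kx (x : T.H A) (y : T.H B) : T.H (T.ten A B) := T.kun A B (x ⊗ₜ y)

lemma kx_add_left (x x' : T.H A) (y : T.H B) : (kx (x + x') y : T.H (T.ten A B)) = kx x y + kx x' y := by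
  rw [kx, TensorProduct.add_tmul, map_add]; rfl

lemma kx_add_right (x : T.H A) (y y' : T.H B) : (kx x (y + y') : T.H (T.ten A B)) = kx x y + kx x y' := by
  rw [kx, TensorProduct.tmul_add, map_add]; rfl

lemma kx_smul_left (c : K) (x : T.H A) (y : T.H B) : (kx (c • x) y : T.H (T.ten A B)) = c • kx x y := by
  rw [kx, ← TensorProduct.smul_tmul', map_smul]; rfl

lemma kx_smul_right (c : K) (x : T.H A) (y : T.H B) : (kx x (c • y) : T.H (T.ten A B)) = c • kx x y := by
  rw [kx, TensorProduct.tmul_smul, map_smul]; rfl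

lemma kx_zero_left (y : T.H B) : (kx (0 : T.H A) y : T.H (T.ten A B)) = 0 := by
  rw [kx, TensorProduct.zero_tmul, map_zero]

lemma kx_zero_right (x : T.H A) : (kx x (0 : T.H B) : T.H (T.ten A B)) = 0 := by
  rw [kx, TensorProduct.tmul_zero, map_zero]

/-- External product of maps. -/
def ex (f : T.H A →ₗ[K] T.H B) (g : T.H C →ₗ[K] T.H D) :
    T.H (T.ten A C) →ₗ[K] T.H (T.ten B D) := ext (T.kun A C) (T.kun B D) f g

lemma ex_kx (f : T.H A →ₗ[K] T.H B) (g : T.H C →ₗ[K] T.H D) (x : T.H A) (y : T.H C) :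
    ex f g (kx x y) = kx (f x) (g y) := by
  simp [ex, ext, kx]

lemma kx_ext {V : Type*} [AddCommGroup V] [Module K V] {F G : T.H (T.ten A B) →ₗ[K] V}
    (h : ∀ x y, F (kx x y) = G (kx x y)) : F = G := by
  have h1 : F ∘ₗ (T.kun A B).toLinearMap = G ∘ₗ (T.kun A B).toLinearMap := by
    apply TensorProduct.ext'
    intro x y
    exact h x y
  apply LinearMap.ext
  intro z
  obtain ⟨t, rfl⟩ := (T.kun A B).surjective z
  exact congrArg (fun f => f t) h1

lemma kx_ext₃ {V : Type*} [AddCommGroup V] [Module K V]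
    {F G : T.H (T.ten (T.ten A B) C) →ₗ[K] V}
    (h : ∀ x y z, F (kx (kx x y) z) = G (kx (kx x y) z)) : F = G := by
  have h1 : ∀ z : T.H C, ∀ t : T.H (T.ten A B), F (kx t z) = G (kx t z) := by
    intro z t
    let Φ : T.H (T.ten A B) →ₗ[K] T.H (T.ten (T.ten A B) C) :=
      { toFun := fun t => kx t z
        map_add' := fun a b => kx_add_left a b z
        map_smul' := fun c a => kx_smul_left c a z }
    have h2 : F ∘ₗ Φ = G ∘ₗ Φ := kx_ext fun x y => h x y z
    exact congrArg (fun f => f t) h2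
  exact kx_ext fun t z => h1 z t

lemma kx_ext₃' {V : Type*} [AddCommGroup V] [Module K V]
    {F G : T.H (T.ten A (T.ten B C)) →ₗ[K] V}
    (h : ∀ x y z, F (kx x (kx y z)) = G (kx x (kx y z))) : F = G := by
  have h1 : ∀ x : T.H A, ∀ t : T.H (T.ten B C), F (kx x t) = G (kx x t) := by
    intro x t
    let Φ : T.H (T.ten B C) →ₗ[K] T.H (T.ten A (T.ten B C)) :=
      { toFun := fun t => kx x t
        map_add' := fun a b => kx_add_right x a b
        map_smul' := fun c a => kx_smul_right c x a }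
    have h2 : F ∘ₗ Φ = G ∘ₗ Φ := kx_ext fun y z => h x y z
    exact congrArg (fun f => f t) h2
  exact kx_ext fun x t => h1 x t

lemma ex_comp (f : T.H A →ₗ[K] T.H B) (g : T.H C →ₗ[K] T.H D) (f' : T.H B →ₗ[K] T.H P)
    (g' : T.H D →ₗ[K] T.H Q) : ex f' g' ∘ₗ ex f g = ex (f' ∘ₗ f) (g' ∘ₗ g) :=
  kx_ext fun x y => by simp only [LinearMap.comp_apply, ex_kx]

lemma ex_id : ex (LinearMap.id : T.H A →ₗ[K] T.H A) (LinearMap.id : T.H B →ₗ[K] T.H B) =
    LinearMap.id := kx_ext fun x y => by simp only [LinearMap.id_apply, ex_kx]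

lemma ex_add_left (f f' : T.H A →ₗ[K] T.H B) (g : T.H C →ₗ[K] T.H D) :
    ex (f + f') g = ex f g + ex f' g :=
  kx_ext fun x y => by rw [LinearMap.add_apply, ex_kx, ex_kx, ex_kx, LinearMap.add_apply, kx_add_left]

lemma ex_add_right (f : T.H A →ₗ[K] T.H B) (g g' : T.H C →ₗ[K] T.H D) :
    ex f (g + g') = ex f g + ex f g' :=
  kx_ext fun x y => by rw [LinearMap.add_apply, ex_kx, ex_kx, ex_kx, LinearMap.add_apply, kx_add_right]

lemma ex_smul_left (c : K) (f : T.H A →ₗ[K] T.H B) (g : T.H C →ₗ[K] T.H D) :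
    ex (c • f) g = c • ex f g :=
  kx_ext fun x y => by rw [LinearMap.smul_apply, ex_kx, ex_kx, LinearMap.smul_apply, kx_smul_left]

lemma ex_smul_right (c : K) (f : T.H A →ₗ[K] T.H B) (g : T.H C →ₗ[K] T.H D) :
    ex f (c • g) = c • ex f g :=
  kx_ext fun x y => by rw [LinearMap.smul_apply, ex_kx, ex_kx, LinearMap.smul_apply, kx_smul_right]

lemma ex_zero_left (g : T.H C →ₗ[K] T.H D) : ex (0 : T.H A →ₗ[K] T.H B) g = 0 :=
  kx_ext fun x y => by rw [ex_kx, LinearMap.zero_apply, kx_zero_left, LinearMap.zero_apply]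

lemma ex_zero_right (f : T.H A →ₗ[K] T.H B) : ex f (0 : T.H C →ₗ[K] T.H D) = 0 :=
  kx_ext fun x y => by rw [ex_kx, LinearMap.zero_apply, kx_zero_right, LinearMap.zero_apply]

lemma S_ex {f : T.H A →ₗ[K] T.H B} (hf : f ∈ T.S A B) {g : T.H C →ₗ[K] T.H D}
    (hg : g ∈ T.S C D) : ex f g ∈ T.S (T.ten A C) (T.ten B D) := by
  induction hf using Submodule.span_induction with
  | mem f hf =>
    induction hg using Submodule.span_induction with
    | mem g hg => exact of_cor (T.cor_ten A B C D f hf g hg)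
    | zero => rw [ex_zero_right]; exact Submodule.zero_mem _
    | add x y _ _ hx hy => rw [ex_add_right]; exact Submodule.add_mem _ hx hy
    | smul c x _ hx => rw [ex_smul_right]; exact Submodule.smul_mem _ _ hx
  | zero => rw [ex_zero_left]; exact Submodule.zero_mem _
  | add x y _ _ hx hy => rw [ex_add_left]; exact Submodule.add_mem _ hx hy
  | smul c x _ hx => rw [ex_smul_left]; exact Submodule.smul_mem _ _ hx

lemma par_kx (x : T.H A) (y : T.H B) : T.par _ (kx x y) = kx (T.par A x) (T.par B y) :=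
  T.par_ten A B x y

lemma par_ex : T.par (T.ten A B) = ex (T.par A) (T.par B) :=
  kx_ext fun x y => by rw [par_kx, ex_kx]

/-- The trace of an external product. -/
lemma trace_ex (f : T.H A →ₗ[K] T.H A) (g : T.H B →ₗ[K] T.H B) :
    LinearMap.trace K _ (ex f g) = LinearMap.trace K _ f * LinearMap.trace K _ g := by
  have h4 : ex f g = (T.kun A B).conj (TensorProduct.map f g) := by
    rw [LinearEquiv.conj_apply, ex, ext, LinearMap.comp_assoc]
  rw [h4, LinearMap.trace_conj', LinearMap.trace_tensorProduct']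

/-- Endomorphisms of a tensor product are sums of external products. -/
lemma end_induction {p : (T.H (T.ten A B) →ₗ[K] T.H (T.ten A B)) → Prop}
    (h0 : ∀ f g, p (ex f g)) (ha : ∀ u v, p u → p v → p (u + v))
    (u : T.H (T.ten A B) →ₗ[K] T.H (T.ten A B)) : p u := by
  let Ψ : (T.H A ⊗[K] T.H B →ₗ[K] T.H A ⊗[K] T.H B) :=
    (T.kun A B).symm.toLinearMap ∘ₗ u ∘ₗ (T.kun A B).toLinearMap
  have hu : u = (T.kun A B).toLinearMap ∘ₗ Ψ ∘ₗ (T.kun A B).symm.toLinearMap := by
    apply LinearMap.ext; intro x; simp [Ψ]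
  obtain ⟨t, ht⟩ := (homTensorHomEquiv K (T.H A) (T.H B) (T.H A) (T.H B)).surjective Ψ
  rw [hu, ← ht]
  induction t using TensorProduct.induction_on with
  | zero =>
    have := h0 (0 : T.H A →ₗ[K] T.H A) (0 : T.H B →ₗ[K] T.H B)
    rw [ex_zero_left] at this
    rw [map_zero, LinearMap.zero_comp, LinearMap.comp_zero]
    exact this
  | tmul f g =>
    rw [homTensorHomEquiv_apply]
    exact h0 f g
  | add x y hx hy =>
    rw [map_add, LinearMap.add_comp, LinearMap.comp_add]
    have key : ∀ t, p ((T.kun A B).toLinearMap ∘ₗ (homTensorHomEquiv K (T.H A) (T.H B) (T.H A)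
        (T.H B)) t ∘ₗ (T.kun A B).symm.toLinearMap) := by
      intro t
      induction t using TensorProduct.induction_on with
      | zero =>
        have := h0 (0 : T.H A →ₗ[K] T.H A) (0 : T.H B →ₗ[K] T.H B)
        rw [ex_zero_left] at this
        rw [map_zero, LinearMap.zero_comp, LinearMap.comp_zero]
        exact this
      | tmul f g =>
        rw [homTensorHomEquiv_apply]
        exact h0 f g
      | add x y hx hy =>
        rw [map_add, LinearMap.add_comp, LinearMap.comp_add]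
        exact ha _ _ hx hy
    exact ha _ _ (key x) (key y)

/-- Structural isomorphisms. -/
lemma exists_assoc (A B C : T.Obj) : ∃ f ∈ T.S (T.ten (T.ten A B) C) (T.ten A (T.ten B C)),
    ∃ g ∈ T.S (T.ten A (T.ten B C)) (T.ten (T.ten A B) C),
      (∀ (x : T.H A) (y : T.H B) (z : T.H C), f (kx (kx x y) z) = kx x (kx y z)) ∧
      ∀ (x : T.H A) (y : T.H B) (z : T.H C), g (kx x (kx y z)) = kx (kx x y) z := by
  obtain ⟨f, hf, g, hg, h⟩ := T.cor_assoc A B C
  exact ⟨f, of_cor hf, g, of_cor hg, fun x y z => (h x y z).1, fun x y z => (h x y z).2⟩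

lemma exists_unit (A : T.Obj) : ∃ f ∈ T.S (T.ten T.one A) A, ∃ g ∈ T.S A (T.ten T.one A),
    (∀ x : T.H A, f (kx T.e x) = x) ∧ ∀ x : T.H A, g x = kx T.e x := by
  obtain ⟨f, hf, g, hg, h⟩ := T.cor_unit A
  exact ⟨f, of_cor hf, g, of_cor hg, fun x => (h x).1, fun x => (h x).2⟩

end Pool.Agent.Y121.ZI.NCTheory
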