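import Pool.Agent.Y121.ZI.Iso

/-!
# Statements of the steps of the zero-infinity law
-/

open scoped TensorProduct

universe u v w

namespace Pool.Agent.Y121.ZI.NCTheory

open Module Pool.Agent.Y133.Half

variable {K : Type u} [Field K] {T : NCTheory.{u, v, w} K}

/-- The rank of the trace form between the part `g` of `P ⊗ Y` and `Y`. -/
noncomputable def b (P : T.Obj) (g : T.H P →ₗ[K] T.H P) (Y : T.Obj) : ℕ :=
  a (T.ten P Y) (ex g LinearMap.id) Y LinearMap.id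

/-- The rank of the trace form on the endomorphisms of `A^{⊗ l}`. -/
noncomputable def al (A : T.Obj) (l : ℕ) : ℕ :=
  a (T.pow A l) LinearMap.id (T.pow A l) LinearMap.id

/-- `A^{⊗ n} ⊗ (A^{⊗ n})^op`. -/
def zz (A : T.Obj) (n : ℕ) : T.Obj := T.ten (T.pow A n) (T.op (T.pow A n))

/-- `A^{⊗ m} ⊗ (A^{⊗ n})^op`. -/
def xx (A : T.Obj) (m n : ℕ) : T.Obj := T.ten (T.pow A m) (T.op (T.pow A n))

/-- `X ⊗ X^op`. -/
def rr (X : T.Obj) : T.Obj := T.ten X (T.op X)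

/-- The objects of weight `j` with respect to `A`. -/
def Good (A P : T.Obj) (j : ℕ) : Prop :=
  finrank K (T.H P) = finrank K (T.H A) ^ (2 * j) ∧
    ∀ n, al A (n + j) ≤ b P LinearMap.id (T.pow A n)

/-- The ratios of the sequence `al A` tend to `(dim H A) ^ 2`. -/
def Full (A : T.Obj) : Prop :=
  ∀ c : ℝ, 0 ≤ c → c < (finrank K (T.H A) : ℝ) ^ 2 → ∃ l₀, ∀ l ≥ l₀, c * al A l ≤ al A (l + 1)

/-- The numerically trivial operators. -/
def Nn (X Y : T.Obj) : Submodule K (T.H X →ₗ[K] T.H Y) where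
  carrier := {u | u ∈ T.S X Y ∧ ∀ v ∈ T.S Y X, LinearMap.trace K (T.H X) (T.par X ∘ₗ v ∘ₗ u) = 0}
  zero_mem' := ⟨Submodule.zero_mem _, fun v _ => by
    rw [LinearMap.comp_zero, LinearMap.comp_zero, map_zero]⟩
  add_mem' := fun {a b} ha hb => ⟨Submodule.add_mem _ ha.1 hb.1, fun v hv => by
    rw [LinearMap.comp_add, LinearMap.comp_add, map_add, ha.2 v hv, hb.2 v hv, add_zero]⟩
  smul_mem' := fun c a ha => ⟨Submodule.smul_mem _ c ha.1, fun v hv => by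
    rw [LinearMap.comp_smul, LinearMap.comp_smul, map_smul, ha.2 v hv, smul_zero]⟩

/-- The classes: the values at `e` of the operators in `S one X`. -/
def Ce (X : T.Obj) : Submodule K (T.H X) := (T.S T.one X).map (LinearMap.applyₗ T.e)

/-- `M` is stable under the operators in `S P P`. -/
def Stab (P : T.Obj) (M : Submodule K (T.H P)) : Prop := ∀ a ∈ T.S P P, ∀ m ∈ M, a m ∈ M

/-- Systems of classes stable under all operators. -/
structure Cls (T : NCTheory.{u, v, w} K) where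
  /-- the classes on `X` -/
  C : ∀ X, Submodule K (T.H X)
  map : ∀ {X Y : T.Obj} (f : T.H X →ₗ[K] T.H Y), f ∈ T.S X Y → ∀ x ∈ C X, f x ∈ C Y
  one : T.e ∈ C T.one

/-- MON. The span of a finite group of monomial matrices containing lifts of all permutations of the
letters. -/
def SMon (K : Type u) [Field K] (M : Type w) [AddCommGroup M] [Module K M]
    [FiniteDimensional K M] : Prop :=
  ∀ (N m : ℕ) (e : Basis (Fin N → Fin m) K M) (G : Subgroup (Module.End K M)ˣ), Finite G →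
    (∀ σ : Equiv.Perm (Fin N), ∃ g ∈ G, ∀ w : Fin N → Fin m, ∃ s : K, s ≠ 0 ∧
      (g : Module.End K M) (e (w ∘ σ)) = s • e w) →
    finrank K M ^ 2 ≤ finrank K (Submodule.span K {f : Module.End K M | ∃ g ∈ G,
      (g : Module.End K M) = f}) * (N + 1) ^ (m ^ 2)

variable (T)

/-- GROW. Growth of the number of operators. -/
def SGrow : Prop := ∀ (A : T.Obj) (n : ℕ), finrank K (T.H A) ^ (2 * n) ≤
  finrank K (T.S (T.pow A n) (T.pow A n)) * (n + 1) ^ (finrank K (T.H A) ^ 2)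

/-- DUAL1. Transposes. -/
def SDual1 : Prop := ∀ (Z : T.Obj) (f : T.H Z →ₗ[K] T.H Z), f ∈ T.S Z Z →
  ∃ f' ∈ T.S (T.op Z) (T.op Z), DP Z (T.op Z) f f' ∧ (f ∘ₗ f = f → f' ∘ₗ f' = f') ∧
    finrank K (LinearMap.range f') = finrank K (LinearMap.range f)

/-- DUAL2. Dual objects. -/
def SDual2 : Prop := ∀ Z : T.Obj,
  DP Z (T.op Z) LinearMap.id LinearMap.id ∧ DP (T.op Z) Z LinearMap.id LinearMap.id ∧
    finrank K (T.H (T.op Z)) = finrank K (T.H Z)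

/-- COEV. An operator `u` is determined by the class `(u ⊗ id)(coevaluation)`. -/
def SCoev : Prop := ∀ X : T.Obj, ∃ c ∈ T.S T.one (rr X), ∀ u : T.H X →ₗ[K] T.H X,
  (ex u (LinearMap.id : T.H (T.op X) →ₗ[K] T.H (T.op X)) : T.H (rr X) →ₗ[K] T.H (rr X)) (c T.e) = 0
    → u = 0

/-- RANK. -/
def SRank : Prop := ∀ Z : T.Obj, T.rank Z = a T.one LinearMap.id Z LinearMap.id

/-- NUM1. Numerically trivial operators form an ideal. -/
def SNum1 : Prop := ∀ X Y Z : T.Obj,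
  (∀ u ∈ Nn X Y, ∀ g ∈ T.S Y Z, g ∘ₗ u ∈ Nn X Z) ∧
    ∀ u ∈ Nn Y Z, ∀ g ∈ T.S X Y, u ∘ₗ g ∈ Nn X Z

/-- NUM2. Numerically trivial operators and external products. -/
def SNum2 : Prop := ∀ X Y Q : T.Obj, ∀ u ∈ Nn X Y,
  ex u (LinearMap.id : T.H Q →ₗ[K] T.H Q) ∈ Nn (T.ten X Q) (T.ten Y Q) ∧
    ex (LinearMap.id : T.H Q →ₗ[K] T.H Q) u ∈ Nn (T.ten Q X) (T.ten Q Y)

/-- CS. The bound by the rank. -/
def SCS : Prop := ∀ (P : T.Obj) (g : T.H P →ₗ[K] T.H P), g ∈ T.S P P → g ∘ₗ g = g → ∀ Y : T.Obj,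
  b P g Y ≤ finrank K (LinearMap.range g) * a Y LinearMap.id Y LinearMap.id

/-- CONV. -/
def SConv : Prop := ∀ (A : T.Obj) (l : ℕ), al A (l + 1) ^ 2 ≤ al A (l + 2) * al A l

/-- AZZ. -/
def SAzz : Prop := ∀ Y : T.Obj,
  a T.one LinearMap.id (rr Y) LinearMap.id = a Y LinearMap.id Y LinearMap.id

/-- GOOD1. -/
def SGood1 : Prop := ∀ A : T.Obj, Good A T.one 0

/-- GOOD2. -/
def SGood2 : Prop := ∀ (A P : T.Obj) (j m k : ℕ), Good A P j →
  Good A (T.ten (rr (xx A m k)) P) (m + k + j)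

/-- NIL. -/
def SNil : Prop := ∀ (A : T.Obj), Full A → (∀ l, 0 < al A l) → 0 < finrank K (T.H A) →
  ∀ (P : T.Obj) (j : ℕ), Good A P j → ∀ x ∈ Nn P P, ∃ n, x ^ n = 0

/-- LOW. -/
def SLow : Prop := ∀ (C : Cls T) (A : T.Obj), Full A → 0 < finrank K (T.H A) →
  ∀ (P : T.Obj) (j : ℕ), Good A P j → ∀ (M : ℕ → Submodule K (T.H P)) (l : ℕ),
    (∀ n, Stab P (M n)) → (∀ n < l, M n < M (n + 1)) → M l ≤ C.C P → ∀ ε : ℝ, 0 < ε →
      ∃ n₀ : ℕ, ∀ n ≥ n₀, ((l : ℝ) - ε) * al A n ≤ finrank K (C.C (zz A n))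

/-- DESC. -/
def SDesc : Prop := ∀ (A : T.Obj) (m k : ℕ),
  (∀ (P : T.Obj) (j : ℕ), Good A P j → ∀ x ∈ Nn P P, ∃ n, x ^ n = 0) →
  ∀ z ∈ Nn T.one (rr (xx A m k)), z ≠ 0 → ∀ f ∈ T.S T.one (rr (xx A m k)),
    ∀ d ∈ T.S (rr (xx A m k)) T.one, d ∘ₗ f = LinearMap.id →
      ∀ N : ℕ, ∃ (P : T.Obj) (j : ℕ), Good A P j ∧ ∃ M : ℕ → Submodule K (T.H P),
        (∀ n, Stab P (M n)) ∧ (∀ n < N + 1, M n < M (n + 1)) ∧ M (N + 1) ≤ Ce P

end Pool.Agent.Y121.ZI.NCTheory
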